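import Mathlib

/-!
# The parabolic Anderson equation on `ℤ`: comparison principle
-/

set_option autoImplicit false

open MeasureTheory Filter Topology Set

namespace Q289.PAM

/-- the right hand side of the equation -/
noncomputable def rhs (κ γ : ℝ) (ξ u : ℤ → ℝ → ℝ) (x : ℤ) (s : ℝ) : ℝ :=
  κ * (u (x + 1) s + u (x - 1) s - 2 * u x s) + γ * ξ x s * u x s

/-- integrability of the right hand side -/
theorem rhs_int {κ γ s₀ s₁ : ℝ} {ξ D : ℤ → ℝ → ℝ} (hs : s₀ ≤ s₁) (hξm : ∀ x, Measurable (ξ x))
    (hξ : ∀ x s, ξ x s ∈ Icc (0 : ℝ) 1) (hc : ∀ x, ContinuousOn (D x) (Icc s₀ s₁)) (x : ℤ) :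
    IntervalIntegrable (rhs κ γ ξ D x) volume s₀ s₁ := by
  have hcu : ∀ x, IntervalIntegrable (D x) volume s₀ s₁ := fun x =>
    ContinuousOn.intervalIntegrable (by rw [uIcc_of_le hs]; exact hc x)
  have h1 : IntervalIntegrable (fun s => ξ x s * D x s) volume s₀ s₁ := by
    have h2 := hcu x
    rw [intervalIntegrable_iff] at h2 ⊢
    refine Integrable.bdd_mul (c := 1) h2 (hξm x).aestronglyMeasurable ?_
    refine Filter.Eventually.of_forall fun s => ?_
    rw [Real.norm_eq_abs, abs_of_nonneg (hξ x s).1]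
    exact (hξ x s).2
  have h3 : IntervalIntegrable (fun s => κ * (D (x + 1) s + D (x - 1) s - 2 * D x s) +
      γ * (ξ x s * D x s)) volume s₀ s₁ :=
    ((((hcu (x + 1)).add (hcu (x - 1))).sub ((hcu x).const_mul 2)).const_mul κ).add
      (h1.const_mul γ)
  have h4 : rhs κ γ ξ D x = fun s => κ * (D (x + 1) s + D (x - 1) s - 2 * D x s) +
      γ * (ξ x s * D x s) := by
    ext s; unfold rhs; ring
  rw [h4]
  exact h3

/-- comparison principle, one interval -/
theorem comp {κ γ s₀ s₁ : ℝ} {ξ D : ℤ → ℝ → ℝ} (hκ : 0 ≤ κ) (hγ : 0 ≤ γ)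
    (hξm : ∀ x, Measurable (ξ x)) (hξ : ∀ x s, ξ x s ∈ Icc (0 : ℝ) 1)
    (hc : ∀ x, ContinuousOn (D x) (Icc s₀ s₁)) {B : ℝ}
    (hB : ∀ x, ∀ t ∈ Icc s₀ s₁, |D x t| ≤ B) (h0 : ∀ x, 0 ≤ D x s₀)
    (hD : ∀ x s t, s₀ ≤ s → s ≤ t → t ≤ s₁ → ∫ r in s..t, rhs κ γ ξ D x r ≤ D x t - D x s) :
    ∀ x, ∀ t ∈ Icc s₀ s₁, 0 ≤ D x t := by
  set K := 2 * κ + γ with hK
  have hK0 : 0 ≤ K := by positivity
  have key : ∀ n : ℕ, ∀ x, ∀ t ∈ Icc s₀ s₁, -(B * (K * (t - s₀)) ^ n / n.factorial) ≤ D x t := by
    intro n
    induction n with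
    | zero =>
      intro x t ht
      have := hB x t ht
      rw [abs_le] at this
      simpa using this.1
    | succ n ih =>
      intro x t ht
      have hB0 : 0 ≤ B := (abs_nonneg _).trans (hB x t ht)
      have ht0 : 0 ≤ t - s₀ := by linarith [ht.1]
      by_cases hneg : 0 ≤ D x t
      · have : 0 ≤ B * (K * (t - s₀)) ^ (n + 1) / (n + 1).factorial := by positivity
        linarith
      push Not at hneg
      -- last nonnegative time
      set S : Set ℝ := {s ∈ Icc s₀ t | 0 ≤ D x s} with hS
      have hSne : S.Nonempty := ⟨s₀, ⟨le_rfl, ht.1⟩, h0 x⟩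
      have hSb : BddAbove S := ⟨t, fun s hs => hs.1.2⟩
      have hSc : IsClosed S := by
        have h1 : ContinuousOn (D x) (Icc s₀ t) := (hc x).mono (Icc_subset_Icc_right ht.2)
        exact h1.preimage_isClosed_of_isClosed isClosed_Icc isClosed_Ici
      set σ := sSup S with hσ
      have hσS : σ ∈ S := hSc.csSup_mem hSne hSb
      have hσt : σ ≤ t := hσS.1.2
      have hσ0 : s₀ ≤ σ := hσS.1.1
      have hafter : ∀ r, σ < r → r ≤ t → D x r < 0 := by
        intro r h1 h2
        by_contra hcon
        push Not at hcon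
        exact absurd (le_csSup hSb ⟨⟨hσ0.trans h1.le, h2⟩, hcon⟩) (not_le.2 h1)
      have h1 := hD x σ t hσ0 hσt ht.2
      have hint1 : IntervalIntegrable (rhs κ γ ξ D x) volume σ t := by
        refine rhs_int hσt hξm hξ (fun y => (hc y).mono (Icc_subset_Icc hσ0 ht.2)) x
      have hint2 : IntervalIntegrable (fun r => -(K * (B * (K * (r - s₀)) ^ n / n.factorial)))
          volume σ t := Continuous.intervalIntegrable (by fun_prop) _ _
      have hint3 : ∀ a b : ℝ, IntervalIntegrable
          (fun r => K * (B * (K * (r - s₀)) ^ n / n.factorial)) volume a b := fun a b =>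
          Continuous.intervalIntegrable (by fun_prop) _ _
      have h2 : ∫ r in σ..t, -(K * (B * (K * (r - s₀)) ^ n / n.factorial)) ≤
          ∫ r in σ..t, rhs κ γ ξ D x r := by
        refine intervalIntegral.integral_mono_on_of_le_Ioo hσt hint2 hint1 fun r hr => ?_
        have hr' : r ∈ Icc s₀ s₁ := ⟨hσ0.trans hr.1.le, hr.2.le.trans ht.2⟩
        have e1 := ih (x + 1) r hr'
        have e2 := ih (x - 1) r hr'
        have e3 := ih x r hr'
        have e4 := hafter r hr.1 hr.2.le
        set M := B * (K * (r - s₀)) ^ n / n.factorial with hM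
        have e5 := (hξ x r).1
        have e6 := (hξ x r).2
        have e7 : -M ≤ ξ x r * D x r := by
          have : D x r ≤ ξ x r * D x r := by nlinarith
          linarith
        have e8 : -(κ * M) ≤ κ * D (x + 1) r := by nlinarith
        have e9 : -(κ * M) ≤ κ * D (x - 1) r := by nlinarith
        have e10 : 0 ≤ -(κ * D x r) := by nlinarith
        have e11 : -(γ * M) ≤ γ * (ξ x r * D x r) := by nlinarith
        unfold rhs
        have : κ * (D (x + 1) r + D (x - 1) r - 2 * D x r) + γ * ξ x r * D x r =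
          κ * D (x + 1) r + κ * D (x - 1) r + 2 * (-(κ * D x r)) + γ * (ξ x r * D x r) := by ring
        rw [this, hK]
        have : -((2 * κ + γ) * M) = -(κ * M) - κ * M - γ * M := by ring
        rw [this]
        linarith
      have h3 : ∫ r in σ..t, -(K * (B * (K * (r - s₀)) ^ n / n.factorial)) =
          -∫ r in σ..t, (K * (B * (K * (r - s₀)) ^ n / n.factorial)) :=
        intervalIntegral.integral_neg
      have h4 : ∫ r in σ..t, (K * (B * (K * (r - s₀)) ^ n / n.factorial)) ≤
          ∫ r in s₀..t, (K * (B * (K * (r - s₀)) ^ n / n.factorial)) := by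
        rw [← intervalIntegral.integral_add_adjacent_intervals (hint3 s₀ σ) (hint3 σ t)]
        have : 0 ≤ ∫ r in s₀..σ, (K * (B * (K * (r - s₀)) ^ n / n.factorial)) := by
          refine intervalIntegral.integral_nonneg hσ0 fun r hr => ?_
          have : 0 ≤ r - s₀ := by linarith [hr.1]
          positivity
        linarith
      have h5 : ∫ r in s₀..t, (K * (B * (K * (r - s₀)) ^ n / n.factorial)) =
          B * (K * (t - s₀)) ^ (n + 1) / (n + 1).factorial := by
        have h6 : ∀ r : ℝ, K * (B * (K * (r - s₀)) ^ n / n.factorial) =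
            (B * K ^ (n + 1) / n.factorial) * (r - s₀) ^ n := by
          intro r; rw [mul_pow]; ring
        simp only [h6]
        rw [intervalIntegral.integral_const_mul,
          intervalIntegral.integral_comp_sub_right (fun r => r ^ n) s₀, integral_pow, sub_self,
          zero_pow (Nat.succ_ne_zero n), sub_zero, Nat.factorial_succ, mul_pow]
        have : (n.factorial : ℝ) ≠ 0 := by positivity
        have : (n : ℝ) + 1 ≠ 0 := by positivity
        push_cast
        field_simp
      have h6 : 0 ≤ D x σ := hσS.2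
      rw [h5] at h4
      linarith
  intro x t ht
  have hlim : Tendsto (fun n : ℕ => -(B * (K * (t - s₀)) ^ n / n.factorial)) atTop (𝓝 0) := by
    have h1 := (FloorSemiring.tendsto_pow_div_factorial_atTop (K * (t - s₀))).const_mul B
    have h2 := h1.neg
    simp only [mul_zero, neg_zero] at h2
    refine h2.congr fun n => ?_
    ring
  exact le_of_tendsto' hlim fun n => key n x t ht

end Q289.PAM
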