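import Pool.Agent.Q289.PAM.Grow

/-!
# The parabolic Anderson equation on `ℤ`: growth rate for a moving window
-/

set_option autoImplicit false

open MeasureTheory Filter Topology Set

namespace Q289.PAM

section

variable {κ γ : ℝ} {ξ u : ℤ → ℝ → ℝ}

/-- the exponent of one slab -/
noncomputable def gg (κ γ τ : ℝ) (w : ℕ) : ℝ :=
  lam κ γ w * (τ - 1) + Real.log (Real.sin (Real.pi / (w + 1))) + 2 * Real.log (bet κ)

theorem IsSol.flat (h : IsSol κ γ ξ u) (hκ : 0 < κ) (hγ : 0 ≤ γ)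
    (hξm : ∀ x, Measurable (ξ x)) (hξ : ∀ x s, ξ x s ∈ Icc (0 : ℝ) 1) {w : ℕ}
    {τ : ℝ} (hτ : 2 ≤ τ) {a : ℤ}
    (hwin : ∀ j : ℕ, ∀ x : ℤ, a - j < x → x ≤ a - j + w → ∀ t ∈ Icc (j * τ) ((j + 1) * τ),
      ξ x t = 1) : ∃ C₀ : ℝ, 0 < C₀ ∧ ∀ i : ℕ, ∀ x : ℤ, a - (a.natAbs + w + 1 + i : ℕ) < x →
      x ≤ a - (a.natAbs + w + 1 + i : ℕ) + w →
      C₀ * (Real.exp (lam κ γ w * (τ - 1)) * Real.sin (Real.pi / (w + 1)) * bet κ) ^ i ≤
        u x (((a.natAbs + w + 1 + i : ℕ) : ℝ) * τ + 1) := by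
  set j₀ : ℕ := a.natAbs + w + 1 with hj₀
  have hb := bet_pos hκ
  set n₀ : ℕ := ⌊(j₀ : ℝ) * τ + 1⌋₊ with hn₀
  refine ⟨bet κ * bet κ ^ n₀, by positivity, fun i => ?_⟩
  induction i with
  | zero =>
    intro x hx1 hx2
    rw [pow_zero, mul_one, add_zero]
    have h1 : ((2 * j₀ : ℕ) : ℝ) ≤ (j₀ : ℝ) * τ + 1 := by
      push_cast
      have : (0 : ℝ) ≤ j₀ := by positivity
      nlinarith
    have h2 : 2 * j₀ ≤ n₀ := Nat.le_floor h1
    have h3 : |x - 0| ≤ (n₀ : ℤ) := by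
      rw [sub_zero, abs_le]
      constructor <;> omega
    have h4 := h.steps hκ hγ hξm hξ n₀ le_rfl 0 x h3
    rw [h.zero, if_pos rfl, mul_one, zero_add] at h4
    have h5 : (0 : ℝ) ≤ (j₀ : ℝ) * τ + 1 := by positivity
    have h6 := h.stay hκ hγ hξm hξ x (t := (n₀ : ℝ)) (s := (j₀ : ℝ) * τ + 1) (by positivity)
      ⟨Nat.floor_le h5, (Nat.lt_floor_add_one _).le⟩
    exact le_trans (mul_le_mul_of_nonneg_left h4 hb.le) h6
  | succ i ih =>
    intro x hx1 hx2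
    have hδ : 0 ≤ Real.sin (Real.pi / (w + 1)) := by
      apply Real.sin_nonneg_of_nonneg_of_le_pi
      · have := Real.pi_pos; positivity
      · have := Real.pi_pos
        rw [div_le_iff₀ (by positivity)]
        have : (0 : ℝ) ≤ w := by positivity
        nlinarith
    have h0 : (0 : ℝ) ≤ ((j₀ + i : ℕ) : ℝ) := by positivity
    have h1 := h.slab hκ hγ hξm hξ (w := w) (a := a - (j₀ + i : ℕ))
      (s₀ := ((j₀ + i : ℕ) : ℝ) * τ + 1) (s₁ := (((j₀ + i : ℕ) : ℝ) + 1) * τ)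
      (C := bet κ * bet κ ^ n₀ *
        (Real.exp (lam κ γ w * (τ - 1)) * Real.sin (Real.pi / (w + 1)) * bet κ) ^ i)
      (by positivity) (by nlinarith) (by positivity)
      (fun y hy1 hy2 t ht => hwin (j₀ + i) y hy1 hy2 t ⟨by linarith [ht.1], ht.2⟩)
      (fun y hy1 hy2 => ih y hy1 hy2) x (by push_cast at hx1 ⊢; omega)
      (by push_cast at hx2 ⊢; omega)
    have e1 : (((j₀ + i : ℕ) : ℝ) + 1) * τ - (((j₀ + i : ℕ) : ℝ) * τ + 1) = τ - 1 := by ring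
    have e2 : ((j₀ + (i + 1) : ℕ) : ℝ) * τ + 1 = (((j₀ + i : ℕ) : ℝ) + 1) * τ + 1 := by
      push_cast; ring
    rw [e1] at h1
    rw [e2, pow_succ]
    refine le_trans (le_of_eq ?_) h1
    ring

theorem IsSol.growth (h : IsSol κ γ ξ u) (hκ : 0 < κ) (hγ : 0 ≤ γ)
    (hξm : ∀ x, Measurable (ξ x)) (hξ : ∀ x s, ξ x s ∈ Icc (0 : ℝ) 1) {w : ℕ} (hw : 1 ≤ w)
    {τ : ℝ} (hτ : 2 ≤ τ) {a : ℤ}
    (hwin : ∀ j : ℕ, ∀ x : ℤ, a - j < x → x ≤ a - j + w → ∀ t ∈ Icc (j * τ) ((j + 1) * τ),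
      ξ x t = 1) :
    ∃ K : ℝ, ∀ᶠ t in atTop, 0 < u 0 t ∧ gg κ γ τ w / (τ + 1) * t - K ≤ Real.log (u 0 t) := by
  obtain ⟨C₀, hC₀, hflat⟩ := h.flat hκ hγ hξm hξ hτ hwin
  set j₀ : ℕ := a.natAbs + w + 1 with hj₀
  have hb := bet_pos hκ
  have hb1 := bet_le_one hκ
  have hlb : Real.log (bet κ) ≤ 0 := Real.log_nonpos hb.le hb1
  have hδ : 0 < Real.sin (Real.pi / (w + 1)) := sin_pos' hw
  set R : ℝ := Real.exp (lam κ γ w * (τ - 1)) * Real.sin (Real.pi / (w + 1)) * bet κ with hR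
  have hR0 : 0 < R := by positivity
  have hlogR : Real.log R = lam κ γ w * (τ - 1) + Real.log (Real.sin (Real.pi / (w + 1))) +
      Real.log (bet κ) := by
    rw [hR, Real.log_mul (by positivity) hb.ne', Real.log_mul (Real.exp_pos _).ne' hδ.ne',
      Real.log_exp]
  set G := gg κ γ τ w with hG
  have hGR : G = Real.log R + Real.log (bet κ) := by
    rw [hG, hlogR]; unfold gg; ring
  set A : ℝ := (a.natAbs : ℝ) with hA
  have hA0 : 0 ≤ A := by positivity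
  have hτ1 : 0 < τ + 1 := by linarith
  refine ⟨|G| * ((A + 2) / (τ + 1) + 1) - (τ + A + 3) * Real.log (bet κ) - Real.log C₀ +
    j₀ * Real.log R, ?_⟩
  filter_upwards [eventually_ge_atTop ((j₀ + 1) * (τ + 1) + A + 2)] with t ht
  set y : ℝ := (t - A - 2) / (τ + 1) with hy
  have hy0 : (j₀ : ℝ) + 1 ≤ y := by
    rw [hy, le_div_iff₀ hτ1]; linarith
  have hj₀0 : (0 : ℝ) ≤ j₀ := by positivity
  have hyτ : y * (τ + 1) = t - A - 2 := by rw [hy]; field_simp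
  set J : ℕ := ⌊y⌋₊ with hJ
  have hJ1 : (J : ℝ) ≤ y := Nat.floor_le (by linarith)
  have hJ2 : y < J + 1 := Nat.lt_floor_add_one y
  have hJ3 : j₀ ≤ J := Nat.le_floor (by linarith)
  obtain ⟨i, hi⟩ := Nat.exists_eq_add_of_le hJ3
  -- time and place
  have hs : (J : ℝ) * τ + 1 + J + A + 1 ≤ t := by
    have : (J : ℝ) * (τ + 1) ≤ y * (τ + 1) := mul_le_mul_of_nonneg_right hJ1 hτ1.le
    nlinarith
  set s : ℝ := (J : ℝ) * τ + 1 with hsdef
  have hJ0 : (0 : ℝ) ≤ J := by positivity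
  have hs0 : 0 ≤ s := by positivity
  have hts : 0 ≤ t - s := by linarith
  set m : ℕ := ⌊t - s⌋₊ with hm
  have hm1 : (m : ℝ) ≤ t - s := Nat.floor_le hts
  have hm2 : t - s < m + 1 := Nat.lt_floor_add_one _
  have hm3 : J + a.natAbs + 1 ≤ m := by
    apply Nat.le_floor
    push_cast
    linarith
  have h1 := hflat i (a - (j₀ + i : ℕ) + 1) (by omega) (by omega)
  rw [← hi] at h1
  have h2 : |(0 : ℤ) - (a - (J : ℕ) + 1)| ≤ (m : ℤ) := by
    rw [abs_le]; constructor <;> omega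
  have h3 := h.steps hκ hγ hξm hξ m hs0 (a - (J : ℕ) + 1) 0 h2
  have h4 := h.stay hκ hγ hξm hξ 0 (t := s + m) (s := t) (by positivity)
    ⟨by linarith, by linarith⟩
  have h5 : bet κ * (bet κ ^ m * (C₀ * R ^ i)) ≤ u 0 t := by
    refine le_trans ?_ h4
    apply mul_le_mul_of_nonneg_left _ hb.le
    refine le_trans ?_ h3
    apply mul_le_mul_of_nonneg_left _ (by positivity)
    exact h1
  have hpos : 0 < bet κ * (bet κ ^ m * (C₀ * R ^ i)) := by positivity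
  refine ⟨hpos.trans_le h5, ?_⟩
  have h6 : Real.log (bet κ * (bet κ ^ m * (C₀ * R ^ i))) ≤ Real.log (u 0 t) :=
    Real.log_le_log hpos h5
  rw [Real.log_mul hb.ne' (by positivity), Real.log_mul (by positivity) (by positivity),
    Real.log_mul hC₀.ne' (by positivity), Real.log_pow, Real.log_pow] at h6
  refine le_trans ?_ h6
  -- numerics
  have hi' : (J : ℝ) = j₀ + i := by rw [hi]; push_cast; ring
  have hmub : (m : ℝ) ≤ J + τ + A + 2 := by
    have : y * (τ + 1) < (J + 1) * (τ + 1) := mul_lt_mul_of_pos_right hJ2 hτ1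
    nlinarith
  have e1 : (J + τ + A + 2) * Real.log (bet κ) ≤ m * Real.log (bet κ) :=
    mul_le_mul_of_nonpos_right hmub hlb
  have e2 : (i : ℝ) = J - j₀ := by linarith
  rw [e2]
  have e3 : G / (τ + 1) * t - |G| * ((A + 2) / (τ + 1) + 1) ≤ J * G := by
    have e4 : G / (τ + 1) * t = G * (y + (A + 2) / (τ + 1)) := by
      rw [hy]; field_simp; ring
    rw [e4]
    have e5 : G * ((A + 2) / (τ + 1)) ≤ |G| * ((A + 2) / (τ + 1)) :=
      mul_le_mul_of_nonneg_right (le_abs_self G) (by positivity)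
    have e6 : G * (y - J) ≤ |G| * 1 := by
      calc G * (y - J) ≤ |G| * (y - J) := mul_le_mul_of_nonneg_right (le_abs_self G) (by linarith)
        _ ≤ |G| * 1 := mul_le_mul_of_nonneg_left (by linarith) (abs_nonneg G)
    nlinarith
  rw [hGR] at e3 ⊢
  nlinarith

end

end Q289.PAM
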