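import Pool.Agent.Q289.PAM.Torus
import Pool.Agent.Q289.PAM.Rate

/-!
# The random field
-/

set_option autoImplicit false

open MeasureTheory Filter Topology Set

namespace Q289.PAM

theorem exists_trans : ∃ α : ℝ, 0 < α ∧ α < 1 / 100 ∧ Transcendental ℤ α := by
  have h := (Algebraic.countable ℤ ℝ).dense_compl ℝ
  obtain ⟨α, h1, h2⟩ := h.exists_mem_open (isOpen_Ioo (a := (0 : ℝ)) (b := 1 / 100))
    ⟨1 / 200, by norm_num, by norm_num⟩
  exact ⟨α, h2.1, h2.2, h1⟩

/-- rational independence of powers of a transcendental number -/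
theorem indep {α : ℝ} (hα : Transcendental ℤ α) {e : ℕ → ℕ} (he : Function.Injective e)
    (he1 : ∀ n, 1 ≤ e n) {k : ℕ →₀ ℤ} (hk : k ≠ 0) (m : ℤ) :
    (k.sum fun n a => (a : ℝ) * α ^ e n) ≠ m := by
  intro h
  set p : Polynomial ℤ := (∑ n ∈ k.support, Polynomial.monomial (e n) (k n)) - Polynomial.C m
    with hp
  have h0 : Polynomial.aeval α p = 0 := by
    rw [hp, map_sub, map_sum, Polynomial.aeval_C, ← sub_eq_zero.2 h]
    unfold Finsupp.sum
    congr 1
    refine Finset.sum_congr rfl fun n _ => ?_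
    rw [Polynomial.aeval_monomial]
    rfl
  have h1 : p = 0 := by
    by_contra hne
    exact hα ⟨p, hne, h0⟩
  apply hk
  ext n
  by_cases hn : n ∈ k.support
  · have h2 : p.coeff (e n) = k n := by
      rw [hp, Polynomial.coeff_sub, Polynomial.finsetSum_coeff, Polynomial.coeff_C,
        if_neg (by have := he1 n; omega), sub_zero, Finset.sum_eq_single n]
      · rw [Polynomial.coeff_monomial, if_pos rfl]
      · intro b _ hbn
        rw [Polynomial.coeff_monomial, if_neg (fun h => hbn (he h))]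
      · intro h; exact absurd hn h
    rw [h1, Polynomial.coeff_zero] at h2
    exact h2.symm
  · exact Finsupp.notMem_support_iff.1 hn

/-- the translation of the torus corresponding to the space-time translation by `(x, t)` -/
noncomputable def st (α : ℝ) (x : ℤ) (t : ℝ) : Om :=
  fun n => ((x * α ^ (n + 1) + t * α ^ (3 * (n + 1)) : ℝ) : UnitAddCircle)

theorem st_add (α : ℝ) (x y : ℤ) (t s : ℝ) : st α (x + y) (t + s) = sh (st α x t) (st α y s) := by
  funext n
  unfold st sh
  rw [← AddCircle.coe_add]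
  congr 1
  push_cast
  ring

/-- arcs -/
noncomputable def qq (n : ℕ) : ℝ := (1 / 4) ^ (n + 1)

/-- the event that some scale is active -/
def Act : Set Om := {ω | ∃ n, ω n ∈ Metric.closedBall (0 : UnitAddCircle) (qq n / 2)}

theorem Act_meas : MeasurableSet Act := by
  have : Act = ⋃ n, (fun ω : Om => ω n) ⁻¹' Metric.closedBall (0 : UnitAddCircle) (qq n / 2) := by
    ext ω; simp [Act]
  rw [this]
  exact MeasurableSet.iUnion fun n => (measurable_pi_apply n) Metric.isClosed_closedBall.measurableSet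

/-- the field -/
noncomputable def fld (α : ℝ) (ω : Om) (x : ℤ) (t : ℝ) : ℝ :=
  Act.indicator (fun _ => (1 : ℝ)) (sh (st α x t) ω)

theorem fld_mem (α : ℝ) (ω : Om) (x : ℤ) (t : ℝ) : fld α ω x t ∈ Icc (0 : ℝ) 1 := by
  unfold fld
  by_cases h : sh (st α x t) ω ∈ Act
  · rw [indicator_of_mem h]; exact ⟨zero_le_one, le_rfl⟩
  · rw [indicator_of_notMem h]; exact ⟨le_rfl, zero_le_one⟩

theorem fld_meas (α : ℝ) (x : ℤ) : Measurable fun p : ℝ × Om => fld α p.2 x p.1 := by
  unfold fld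
  refine (measurable_const.indicator Act_meas).comp ?_
  refine measurable_pi_iff.2 fun n => ?_
  unfold sh st
  have h1 : Measurable fun p : ℝ × Om => p.2 n := (measurable_pi_apply n).comp measurable_snd
  have h2 : Measurable fun p : ℝ × Om =>
      ((x * α ^ (n + 1) + p.1 * α ^ (3 * (n + 1)) : ℝ) : UnitAddCircle) := by
    have : Continuous fun p : ℝ × Om =>
        ((x * α ^ (n + 1) + p.1 * α ^ (3 * (n + 1)) : ℝ) : UnitAddCircle) :=
      (AddCircle.continuous_mk' 1).comp (by fun_prop)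
    exact this.measurable
  exact h1.add h2

theorem fld_sh (α : ℝ) (ω : Om) (x y : ℤ) (t s : ℝ) :
    fld α (sh (st α y s) ω) x t = fld α ω (x + y) (t + s) := by
  unfold fld
  rw [st_add]
  congr 1
  funext n
  unfold sh
  abel

theorem prob_ball (n : ℕ) :
    PT {ω | ω n ∈ Metric.closedBall (0 : UnitAddCircle) (qq n / 2)} = ENNReal.ofReal (qq n) := by
  have h1 : PT.map (fun ω => ω n) = volume := Measure.infinitePi_map_eval _ n
  have h2 : PT {ω | ω n ∈ Metric.closedBall (0 : UnitAddCircle) (qq n / 2)} =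
      PT.map (fun ω => ω n) (Metric.closedBall (0 : UnitAddCircle) (qq n / 2)) := by
    rw [Measure.map_apply (measurable_pi_apply n) Metric.isClosed_closedBall.measurableSet]
    rfl
  rw [h2, h1, AddCircle.volume_closedBall]
  congr 1
  have h3 : qq n ≤ 1 := by
    unfold qq
    exact pow_le_one₀ (by norm_num) (by norm_num)
  rw [mul_div_cancel₀ _ two_ne_zero, min_eq_right h3]

theorem prob_Act_le : PT Act ≤ ENNReal.ofReal (1 / 3) := by
  have h0 : Act = ⋃ n, {ω | ω n ∈ Metric.closedBall (0 : UnitAddCircle) (qq n / 2)} := by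
    ext ω; simp [Act]
  rw [h0]
  refine (measure_iUnion_le _).trans ?_
  simp only [prob_ball]
  have hs : Summable qq := by
    unfold qq
    have h2 : ∀ n : ℕ, (1 / 4 : ℝ) ^ (n + 1) = 1 / 4 * (1 / 4) ^ n := fun n => by ring
    simp only [h2]
    exact (summable_geometric_of_lt_one (by norm_num) (by norm_num)).mul_left _
  have hq : ∀ n, 0 ≤ qq n := fun n => by unfold qq; positivity
  rw [← ENNReal.ofReal_tsum_of_nonneg hq hs]
  apply ENNReal.ofReal_le_ofReal
  apply le_of_eq
  unfold qq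
  have h2 : ∀ n : ℕ, (1 / 4 : ℝ) ^ (n + 1) = 1 / 4 * (1 / 4) ^ n := fun n => by ring
  simp only [h2]
  rw [tsum_mul_left, tsum_geometric_of_lt_one (by norm_num) (by norm_num)]
  norm_num

theorem prob_Act_pos : 0 < PT Act := by
  have h1 : {ω | ω 0 ∈ Metric.closedBall (0 : UnitAddCircle) (qq 0 / 2)} ⊆ Act :=
    fun ω hω => ⟨0, hω⟩
  refine lt_of_lt_of_le ?_ (measure_mono h1)
  rw [prob_ball, ENNReal.ofReal_pos]
  unfold qq
  positivity

/-- `chi` on the space-time translations -/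
theorem chi_st (α : ℝ) (k : ℕ →₀ ℤ) (x : ℤ) (t : ℝ) :
    chi k (st α x t) = ((AddCircle.toCircle ((x * (k.sum fun n a => (a : ℝ) * α ^ (n + 1)) +
      t * (k.sum fun n a => (a : ℝ) * α ^ (3 * (n + 1))) : ℝ) : UnitAddCircle) : Circle) : ℂ) := by
  unfold chi st Finsupp.sum
  congr 2
  rw [Finset.mul_sum, Finset.mul_sum, ← Finset.sum_add_distrib]
  have h : ∀ s : Finset ℕ, ∀ f : ℕ → ℝ, ((∑ n ∈ s, f n : ℝ) : UnitAddCircle) =
      ∑ n ∈ s, ((f n : ℝ) : UnitAddCircle) := fun s f =>
    map_sum (QuotientAddGroup.mk' (AddSubgroup.zmultiples (1 : ℝ))) f s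
  rw [h]
  refine Finset.sum_congr rfl fun n _ => ?_
  beta_reduce
  rw [← AddCircle.coe_zsmul]
  congr 1
  rw [zsmul_eq_mul]
  ring

theorem toCircle_ne {r : ℝ} (h : ∀ m : ℤ, r ≠ m) :
    ((AddCircle.toCircle ((r : ℝ) : UnitAddCircle) : Circle) : ℂ) ≠ 1 := by
  intro h1
  have h2 : AddCircle.toCircle ((r : ℝ) : UnitAddCircle) = AddCircle.toCircle (0 : UnitAddCircle) := by
    rw [AddCircle.toCircle_zero]
    exact Circle.coe_injective (by rw [h1]; rfl)
  have h3 := AddCircle.injective_toCircle one_ne_zero h2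
  rw [AddCircle.coe_eq_zero_iff] at h3
  obtain ⟨m, hm⟩ := h3
  apply h m
  rw [← hm, zsmul_eq_mul, mul_one]

theorem time_sep {α : ℝ} (hα : Transcendental ℤ α) (k : ℕ →₀ ℤ) (hk : k ≠ 0) :
    ∃ c ∈ range (fun t : ℝ => st α 0 t), chi k c ≠ 1 := by
  set S : ℝ := k.sum fun n a => (a : ℝ) * α ^ (3 * (n + 1)) with hS
  have hS0 : S ≠ 0 := by
    have := indep hα (e := fun n => 3 * (n + 1)) (fun a b h => by
      simp only at h; omega) (fun n => by omega) hk 0
    simpa using this
  refine ⟨st α 0 (1 / (2 * S)), ⟨_, rfl⟩, ?_⟩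
  rw [chi_st]
  apply toCircle_ne
  intro m hm
  rw [← hS] at hm
  have h1 : (1 : ℝ) / (2 * S) * S = 1 / 2 := by field_simp
  rw [Int.cast_zero, zero_mul, zero_add, h1] at hm
  have h2 : (1 : ℝ) = ((2 * m : ℤ) : ℝ) := by push_cast; linarith
  have h3 : (1 : ℤ) = 2 * m := by exact_mod_cast h2
  omega

theorem space_sep {α : ℝ} (hα : Transcendental ℤ α) (k : ℕ →₀ ℤ) (hk : k ≠ 0) :
    ∃ c ∈ range (fun x : ℤ => st α x 0), chi k c ≠ 1 := by
  refine ⟨st α 1 0, ⟨_, rfl⟩, ?_⟩
  rw [chi_st]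
  apply toCircle_ne
  intro m hm
  rw [Int.cast_one, one_mul, zero_mul, add_zero] at hm
  exact indep hα (e := fun n => n + 1) (fun a b h => by simp only at h; omega)
    (fun n => by omega) hk m hm

end Q289.PAM
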