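import Pool.Agent.Q289.PAM.Sol

/-!
# The parabolic Anderson equation on `ℤ`: lower bounds
-/

set_option autoImplicit false

open MeasureTheory Filter Topology Set

namespace Q289.PAM

/-- the loss in one unit of time -/
noncomputable def bet (κ : ℝ) : ℝ := min 1 κ * Real.exp (-(2 * κ))

theorem bet_pos {κ : ℝ} (hκ : 0 < κ) : 0 < bet κ :=
  mul_pos (lt_min one_pos hκ) (Real.exp_pos _)

theorem bet_le (κ : ℝ) : bet κ ≤ Real.exp (-(2 * κ)) := by
  unfold bet
  have h1 : min 1 κ ≤ 1 := min_le_left _ _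
  have h2 := Real.exp_pos (-(2 * κ))
  nlinarith

theorem bet_le' {κ : ℝ} : bet κ ≤ κ * Real.exp (-(2 * κ)) :=
  mul_le_mul_of_nonneg_right (min_le_right _ _) (Real.exp_pos _).le

theorem bet_le_one {κ : ℝ} (hκ : 0 < κ) : bet κ ≤ 1 :=
  (bet_le κ).trans (Real.exp_le_one_iff.2 (by linarith))

section

variable {κ γ : ℝ} {ξ u : ℤ → ℝ → ℝ}

/-- spreading to the neighbours -/
theorem IsSol.spread (h : IsSol κ γ ξ u) (hκ : 0 < κ) (hγ : 0 ≤ γ)
    (hξm : ∀ x, Measurable (ξ x)) (hξ : ∀ x s, ξ x s ∈ Icc (0 : ℝ) 1) (x : ℤ) {t : ℝ}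
    (ht : 0 ≤ t) : ∀ y, ∀ s ∈ Icc t (t + 1),
    (if y = x then u x t * Real.exp (-(2 * κ) * (s - t)) else
      if y = x + 1 ∨ y = x - 1 then u x t * (κ * (s - t) * Real.exp (-(2 * κ) * (s - t))) else 0) ≤
      u y s := by
  set A := u x t with hA
  have hA0 : 0 ≤ A := h.nonneg hκ.le hγ hξm hξ x ht
  have hexp : ∀ s : ℝ, HasDerivAt (fun s => Real.exp (-(2 * κ) * (s - t)))
      (-(2 * κ) * Real.exp (-(2 * κ) * (s - t))) s := by
    intro s
    have := (((hasDerivAt_id s).sub_const t).const_mul (-(2 * κ))).exp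
    simp only [id, mul_one] at this
    exact this.congr_deriv (mul_comm _ _)
  refine h.ge_of_sub hκ.le hγ hξm hξ ht
    (v' := fun y s => if y = x then A * (-(2 * κ) * Real.exp (-(2 * κ) * (s - t))) else
      if y = x + 1 ∨ y = x - 1 then A * (κ * Real.exp (-(2 * κ) * (s - t)) +
        κ * (s - t) * (-(2 * κ) * Real.exp (-(2 * κ) * (s - t)))) else 0)
    (fun y s => ?_) (fun y => ?_) ⟨A * (1 + κ), fun y s hs => ?_⟩ (fun y => ?_) (fun y s hs => ?_)
  · by_cases h1 : y = x
    · simp only [h1, if_true]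
      exact (hexp s).const_mul A
    · by_cases h2 : y = x + 1 ∨ y = x - 1
      · simp only [h1, if_false, h2, if_true]
        have h3 : HasDerivAt (fun s => κ * (s - t)) κ s := by
          have := ((hasDerivAt_id s).sub_const t).const_mul κ
          simpa using this
        exact (h3.mul (hexp s)).const_mul A
      · simp only [h1, if_false, h2]
        exact hasDerivAt_const s 0
  · by_cases h1 : y = x
    · simp only [h1, if_true]; fun_prop
    · by_cases h2 : y = x + 1 ∨ y = x - 1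
      · simp only [h1, if_false, h2, if_true]; fun_prop
      · simp only [h1, if_false, h2]; fun_prop
  · have e0 : 0 ≤ s - t := by linarith [hs.1]
    have e0' : s - t ≤ 1 := by linarith [hs.2]
    have e1 : Real.exp (-(2 * κ) * (s - t)) ≤ 1 := Real.exp_le_one_iff.2 (by nlinarith)
    have e2 := Real.exp_pos (-(2 * κ) * (s - t))
    have e3 : 0 ≤ A * κ := by positivity
    split_ifs
    · rw [abs_of_nonneg (by positivity)]
      nlinarith
    · rw [abs_of_nonneg (by positivity)]
      have : κ * (s - t) * Real.exp (-(2 * κ) * (s - t)) ≤ κ * 1 * 1 := by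
        apply mul_le_mul _ e1 e2.le (by positivity)
        exact mul_le_mul_of_nonneg_left e0' hκ.le
      nlinarith
    · rw [abs_zero]; nlinarith
  · by_cases h1 : y = x
    · simp only [h1, if_true, sub_self, mul_zero, Real.exp_zero, mul_one]
      exact le_rfl
    · have := h.nonneg hκ.le hγ hξm hξ y ht
      by_cases h2 : y = x + 1 ∨ y = x - 1
      · simp only [h1, if_false, h2, if_true, sub_self, mul_zero, zero_mul]
        exact this
      · simp only [h1, if_false, h2]
        exact this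
  · set E := Real.exp (-(2 * κ) * (s - t)) with hE
    have e2 : 0 < E := Real.exp_pos (-(2 * κ) * (s - t))
    have e0 : 0 ≤ s - t := by linarith [hs.1]
    set v : ℤ → ℝ → ℝ := fun y s => if y = x then A * Real.exp (-(2 * κ) * (s - t)) else
      if y = x + 1 ∨ y = x - 1 then A * (κ * (s - t) * Real.exp (-(2 * κ) * (s - t))) else 0
      with hv
    have hvnn : ∀ y, 0 ≤ v y s := by
      intro y
      simp only [hv]
      split_ifs <;> positivity
    have hvx : v x s = A * E := by simp only [hv, if_true]; rfl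
    have hbase : κ * (v (y + 1) s + v (y - 1) s) - 2 * κ * v y s ≤ rhs κ γ ξ v y s := by
      unfold rhs
      have := hvnn y
      have h1 := (hξ y s).1
      have : 0 ≤ γ * ξ y s * v y s := by positivity
      linarith
    refine le_trans ?_ hbase
    have n1 := hvnn (y + 1)
    have n2 := hvnn (y - 1)
    by_cases h1 : y = x
    · have hvy : v y s = A * E := by rw [h1]; exact hvx
      simp only [h1, if_true]
      rw [h1] at n1 n2 hvy
      rw [hvy]
      nlinarith
    · by_cases h2 : y = x + 1 ∨ y = x - 1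
      · have hvy : v y s = A * (κ * (s - t) * E) := by
          simp only [hv, h1, if_false, h2, if_true]; rfl
        simp only [h1, if_false, h2, if_true]
        rw [hvy]
        have h3 : A * E ≤ v (y + 1) s + v (y - 1) s := by
          rcases h2 with h2 | h2
          · have : v (y - 1) s = A * E := by
              rw [h2, add_sub_cancel_right]; exact hvx
            linarith
          · have : v (y + 1) s = A * E := by
              rw [h2, sub_add_cancel]; exact hvx
            linarith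
        have h4 := mul_le_mul_of_nonneg_left h3 hκ.le
        nlinarith
      · have hvy : v y s = 0 := by
          simp only [hv, h1, if_false, h2]
        simp only [h1, if_false, h2]
        rw [hvy]
        nlinarith

theorem IsSol.step (h : IsSol κ γ ξ u) (hκ : 0 < κ) (hγ : 0 ≤ γ)
    (hξm : ∀ x, Measurable (ξ x)) (hξ : ∀ x s, ξ x s ∈ Icc (0 : ℝ) 1) {x y : ℤ} {t : ℝ}
    (ht : 0 ≤ t) (hxy : |y - x| ≤ 1) : bet κ * u x t ≤ u y (t + 1) := by
  have hA0 : 0 ≤ u x t := h.nonneg hκ.le hγ hξm hξ x ht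
  have h1 := h.spread hκ hγ hξm hξ x ht y (t + 1) ⟨by linarith, le_rfl⟩
  have e : t + 1 - t = 1 := by ring
  rw [e, mul_one, mul_one] at h1
  have h2 : y = x ∨ y = x + 1 ∨ y = x - 1 := by
    rw [abs_le] at hxy
    omega
  rcases h2 with h2 | h2
  · rw [if_pos h2] at h1
    refine le_trans ?_ h1
    rw [mul_comm]
    exact mul_le_mul_of_nonneg_left (bet_le κ) hA0
  · have h3 : y ≠ x := by omega
    rw [if_neg h3, if_pos h2] at h1
    refine le_trans ?_ h1
    rw [mul_comm]
    exact mul_le_mul_of_nonneg_left bet_le' hA0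

theorem IsSol.stay (h : IsSol κ γ ξ u) (hκ : 0 < κ) (hγ : 0 ≤ γ)
    (hξm : ∀ x, Measurable (ξ x)) (hξ : ∀ x s, ξ x s ∈ Icc (0 : ℝ) 1) (x : ℤ) {t s : ℝ}
    (ht : 0 ≤ t) (hs : s ∈ Icc t (t + 1)) : bet κ * u x t ≤ u x s := by
  have hA0 : 0 ≤ u x t := h.nonneg hκ.le hγ hξm hξ x ht
  have h1 := h.spread hκ hγ hξm hξ x ht x s hs
  rw [if_pos rfl] at h1
  refine le_trans ?_ h1
  rw [mul_comm]
  apply mul_le_mul_of_nonneg_left _ hA0
  refine (bet_le κ).trans (Real.exp_le_exp.2 ?_)
  have e0 : 0 ≤ s - t := by linarith [hs.1]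
  have e0' : s - t ≤ 1 := by linarith [hs.2]
  nlinarith

theorem IsSol.steps (h : IsSol κ γ ξ u) (hκ : 0 < κ) (hγ : 0 ≤ γ)
    (hξm : ∀ x, Measurable (ξ x)) (hξ : ∀ x s, ξ x s ∈ Icc (0 : ℝ) 1) (n : ℕ) {t : ℝ}
    (ht : 0 ≤ t) : ∀ x y : ℤ, |y - x| ≤ n → bet κ ^ n * u x t ≤ u y (t + n) := by
  induction n with
  | zero =>
    intro x y hxy
    have : y = x := by
      have : |y - x| ≤ 0 := by exact_mod_cast hxy
      rw [abs_nonpos_iff] at this
      omega
    rw [this, pow_zero, one_mul, Nat.cast_zero, add_zero]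
  | succ n ih =>
    intro x y hxy
    obtain ⟨z, hz1, hz2⟩ : ∃ z : ℤ, |z - x| ≤ n ∧ |y - z| ≤ 1 := by
      push_cast at hxy
      rw [abs_le] at hxy
      rcases lt_trichotomy y x with h1 | h1 | h1
      · refine ⟨y + 1, ?_, ?_⟩ <;> rw [abs_le] <;> constructor <;> omega
      · refine ⟨y, ?_, ?_⟩ <;> rw [abs_le] <;> constructor <;> omega
      · refine ⟨y - 1, ?_, ?_⟩ <;> rw [abs_le] <;> constructor <;> omega
    have h1 := ih x z hz1
    have h2 := h.step hκ hγ hξm hξ (t := t + n) (by positivity) hz2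
    have h3 : t + ((n + 1 : ℕ) : ℝ) = t + n + 1 := by push_cast; ring
    rw [h3, pow_succ]
    calc bet κ ^ n * bet κ * u x t = bet κ * (bet κ ^ n * u x t) := by ring
      _ ≤ bet κ * u z (t + n) := mul_le_mul_of_nonneg_left h1 (bet_pos hκ).le
      _ ≤ _ := h2

/-- the rate of the confined solution -/
noncomputable def lam (κ γ : ℝ) (w : ℕ) : ℝ := γ - κ * (2 - 2 * Real.cos (Real.pi / (w + 1)))

/-- growth while confined to a window with `ξ = 1` -/
theorem IsSol.confine (h : IsSol κ γ ξ u) (hκ : 0 < κ) (hγ : 0 ≤ γ)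
    (hξm : ∀ x, Measurable (ξ x)) (hξ : ∀ x s, ξ x s ∈ Icc (0 : ℝ) 1) {w : ℕ}
    {a : ℤ} {s₀ s₁ C : ℝ} (hs₀ : 0 ≤ s₀) (hC : 0 ≤ C)
    (hone : ∀ x : ℤ, a < x → x ≤ a + w → ∀ t ∈ Icc s₀ s₁, ξ x t = 1)
    (hini : ∀ x : ℤ, a < x → x ≤ a + w → C ≤ u x s₀) :
    ∀ x : ℤ, a < x → x ≤ a + w → ∀ t ∈ Icc s₀ s₁,
      C * Real.exp (lam κ γ w * (t - s₀)) * Real.sin (Real.pi / (w + 1) * (x - a)) ≤ u x t := by
  set hh : ℝ := Real.pi / (w + 1) with hhh
  have hh0 : 0 < hh := by have := Real.pi_pos; positivity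
  have hhw : hh * (w + 1) = Real.pi := by rw [hhh]; field_simp
  set φ : ℤ → ℝ := fun x => if a < x ∧ x ≤ a + w then Real.sin (hh * (x - a)) else 0 with hφ
  have hsin : ∀ x : ℤ, a ≤ x → x ≤ a + w + 1 → φ x = Real.sin (hh * (x - a)) := by
    intro x h1 h2
    simp only [hφ]
    split_ifs with h3
    · rfl
    · have h4 : x = a ∨ x = a + w + 1 := by omega
      rcases h4 with h4 | h4
      · rw [h4, sub_self, mul_zero, Real.sin_zero]
      · rw [h4]
        push_cast
        have : hh * ((a : ℝ) + w + 1 - a) = Real.pi := by rw [← hhw]; ring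
        rw [this, Real.sin_pi]
  have hφnn : ∀ x, 0 ≤ φ x := by
    intro x
    simp only [hφ]
    split_ifs with h3
    · apply Real.sin_nonneg_of_nonneg_of_le_pi
      · have : (a : ℝ) < x := by exact_mod_cast h3.1
        have : 0 ≤ (x : ℝ) - a := by linarith
        positivity
      · have : (x : ℝ) ≤ a + w := by exact_mod_cast h3.2
        rw [← hhw]
        apply mul_le_mul_of_nonneg_left _ hh0.le
        linarith
    · exact le_rfl
  have hφle : ∀ x, φ x ≤ 1 := by
    intro x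
    simp only [hφ]
    split_ifs
    · exact Real.sin_le_one _
    · norm_num
  have hexp : ∀ s : ℝ, HasDerivAt (fun s => Real.exp (lam κ γ w * (s - s₀)))
      (lam κ γ w * Real.exp (lam κ γ w * (s - s₀))) s := by
    intro s
    have := (((hasDerivAt_id s).sub_const s₀).const_mul (lam κ γ w)).exp
    simp only [id, mul_one] at this
    exact this.congr_deriv (mul_comm _ _)
  intro x hx1 hx2 t ht
  have hmain := h.ge_of_sub hκ.le hγ hξm hξ hs₀ (s₁ := s₁)
    (v := fun x s => φ x * C * Real.exp (lam κ γ w * (s - s₀)))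
    (v' := fun x s => φ x * C * (lam κ γ w * Real.exp (lam κ γ w * (s - s₀))))
    (fun y s => (hexp s).const_mul _) (fun y => by fun_prop)
    ⟨C * Real.exp (|lam κ γ w| * (s₁ - s₀)), fun y s hs => ?_⟩ (fun y => ?_) (fun y s hs => ?_)
    x t ht
  · have : φ x = Real.sin (hh * (x - a)) := hsin x hx1.le (by omega)
    rw [← this]
    refine le_trans (le_of_eq ?_) hmain
    ring
  · have e1 := Real.exp_pos (lam κ γ w * (s - s₀))
    rw [abs_of_nonneg (mul_nonneg (mul_nonneg (hφnn y) hC) e1.le)]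
    apply mul_le_mul _ _ e1.le hC
    · have := hφle y
      nlinarith
    · apply Real.exp_le_exp.2
      have e2 : 0 ≤ s - s₀ := by linarith [hs.1]
      have e3 : s - s₀ ≤ s₁ - s₀ := by linarith [hs.2]
      calc lam κ γ w * (s - s₀) ≤ |lam κ γ w| * (s - s₀) :=
            mul_le_mul_of_nonneg_right (le_abs_self _) e2
        _ ≤ _ := mul_le_mul_of_nonneg_left e3 (abs_nonneg _)
  · simp only [sub_self, mul_zero, Real.exp_zero, mul_one]
    by_cases h3 : a < y ∧ y ≤ a + w
    · have := hini y h3.1 h3.2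
      have := hφle y
      have := hφnn y
      nlinarith
    · have : φ y = 0 := by simp only [hφ, h3, if_false]
      rw [this, zero_mul]
      exact h.nonneg hκ.le hγ hξm hξ y hs₀
  · set E := Real.exp (lam κ γ w * (s - s₀)) with hE
    have e2 : 0 < E := Real.exp_pos _
    unfold rhs
    change φ y * C * (lam κ γ w * E) ≤ κ * (φ (y + 1) * C * E + φ (y - 1) * C * E -
      2 * (φ y * C * E)) + γ * ξ y s * (φ y * C * E)
    have hCE : 0 ≤ C * E := by positivity
    by_cases h3 : a < y ∧ y ≤ a + w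
    · rw [hone y h3.1 h3.2 s hs, hsin (y + 1) (by omega) (by omega),
        hsin (y - 1) (by omega) (by omega), hsin y (by omega) (by omega)]
      push_cast
      have e3 : Real.sin (hh * ((y : ℝ) + 1 - a)) + Real.sin (hh * ((y : ℝ) - 1 - a)) =
          2 * Real.cos hh * Real.sin (hh * ((y : ℝ) - a)) := by
        have e4 : hh * ((y : ℝ) + 1 - a) = hh * (y - a) + hh := by ring
        have e5 : hh * ((y : ℝ) - 1 - a) = hh * (y - a) - hh := by ring
        rw [e4, e5, Real.sin_add, Real.sin_sub]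
        ring
      have e6 : Real.sin (hh * ((y : ℝ) + 1 - a)) = 2 * Real.cos hh * Real.sin (hh * ((y : ℝ) - a)) -
        Real.sin (hh * ((y : ℝ) - 1 - a)) := by linarith
      rw [e6]
      unfold lam
      rw [← hhh]
      apply le_of_eq
      ring
    · have : φ y = 0 := by simp only [hφ, h3, if_false]
      rw [this]
      have e3 := hφnn (y + 1)
      have e4 := hφnn (y - 1)
      have e5 : 0 ≤ κ * (φ (y + 1) * C * E + φ (y - 1) * C * E) := by positivity
      simp only [zero_mul, mul_zero, sub_zero, add_zero]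
      exact e5

theorem sin_ge {w : ℕ} {k : ℝ} (h1 : 1 ≤ k) (h2 : k ≤ w) :
    Real.sin (Real.pi / (w + 1)) ≤ Real.sin (Real.pi / (w + 1) * k) := by
  have hpi := Real.pi_pos
  set hh : ℝ := Real.pi / (w + 1) with hhh
  have hh0 : 0 < hh := by positivity
  have hhw : hh * (w + 1) = Real.pi := by rw [hhh]; field_simp
  rcases le_or_gt (hh * k) (Real.pi / 2) with h | h
  · apply Real.sin_le_sin_of_le_of_le_pi_div_two _ h
    · nlinarith
    · linarith
  · rw [← Real.sin_pi_sub (hh * k)]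
    apply Real.sin_le_sin_of_le_of_le_pi_div_two
    · linarith
    · linarith
    · nlinarith

theorem sin_pos' {w : ℕ} (hw : 1 ≤ w) : 0 < Real.sin (Real.pi / (w + 1)) := by
  have hpi := Real.pi_pos
  have hw' : (1 : ℝ) ≤ w := by exact_mod_cast hw
  apply Real.sin_pos_of_pos_of_lt_pi (by positivity)
  rw [div_lt_iff₀ (by positivity)]
  nlinarith

/-- one slab: confinement and then moving by one site to the left -/
theorem IsSol.slab (h : IsSol κ γ ξ u) (hκ : 0 < κ) (hγ : 0 ≤ γ)
    (hξm : ∀ x, Measurable (ξ x)) (hξ : ∀ x s, ξ x s ∈ Icc (0 : ℝ) 1) {w : ℕ}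
    {a : ℤ} {s₀ s₁ C : ℝ} (hs₀ : 0 ≤ s₀) (hs₁ : s₀ ≤ s₁) (hC : 0 ≤ C)
    (hone : ∀ x : ℤ, a < x → x ≤ a + w → ∀ t ∈ Icc s₀ s₁, ξ x t = 1)
    (hini : ∀ x : ℤ, a < x → x ≤ a + w → C ≤ u x s₀) :
    ∀ x : ℤ, a - 1 < x → x ≤ a - 1 + w →
      C * (Real.exp (lam κ γ w * (s₁ - s₀)) * Real.sin (Real.pi / (w + 1)) * bet κ) ≤
        u x (s₁ + 1) := by
  intro x hx1 hx2
  -- choose a neighbour in the window
  obtain ⟨z, hz1, hz2, hz3⟩ : ∃ z : ℤ, a < z ∧ z ≤ a + w ∧ |x - z| ≤ 1 := by
    rcases eq_or_lt_of_le (show a ≤ x by omega) with h1 | h1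
    · refine ⟨x + 1, by omega, by omega, ?_⟩
      rw [abs_le]; constructor <;> omega
    · refine ⟨x, h1, by omega, by simp⟩
  have h1 := h.confine hκ hγ hξm hξ hs₀ hC hone hini z hz1 hz2 s₁ ⟨hs₁, le_rfl⟩
  have h2 := h.step hκ hγ hξm hξ (hs₀.trans hs₁) hz3
  have h3 : Real.sin (Real.pi / (w + 1)) ≤ Real.sin (Real.pi / (w + 1) * ((z : ℝ) - a)) := by
    apply sin_ge
    · have : (a : ℝ) + 1 ≤ z := by exact_mod_cast hz1
      linarith
    · have : (z : ℝ) ≤ a + w := by exact_mod_cast hz2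
      linarith
  have h4 : C * Real.exp (lam κ γ w * (s₁ - s₀)) * Real.sin (Real.pi / (w + 1)) ≤ u z s₁ :=
    le_trans (mul_le_mul_of_nonneg_left h3 (by positivity)) h1
  calc C * (Real.exp (lam κ γ w * (s₁ - s₀)) * Real.sin (Real.pi / (w + 1)) * bet κ)
      = bet κ * (C * Real.exp (lam κ γ w * (s₁ - s₀)) * Real.sin (Real.pi / (w + 1))) := by ring
    _ ≤ bet κ * u z s₁ := mul_le_mul_of_nonneg_left h4 (bet_pos hκ).le
    _ ≤ _ := h2

end

end Q289.PAM
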