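import Pool.Agent.Q289.PAM.Sol

/-!
# The parabolic Anderson equation on `ℤ`: existence
-/

set_option autoImplicit false

open MeasureTheory Filter Topology Set

namespace Q289.PAM

/-- Picard iterates -/
noncomputable def pic (κ γ : ℝ) (ξ : ℤ → ℝ → ℝ) : ℕ → ℤ → ℝ → ℝ
  | 0 => fun x _ => if x = 0 then 1 else 0
  | n + 1 => fun x t => ∫ s in (0 : ℝ)..t, rhs κ γ ξ (pic κ γ ξ n) x s

/-- the solution -/
noncomputable def sol (κ γ : ℝ) (ξ : ℤ → ℝ → ℝ) (x : ℤ) (t : ℝ) : ℝ := ∑' n, pic κ γ ξ n x t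

section

variable {κ γ : ℝ} {ξ : ℤ → ℝ → ℝ}

theorem rhs_locInt (hξm : ∀ x, Measurable (ξ x)) (hξ : ∀ x s, ξ x s ∈ Icc (0 : ℝ) 1)
    {D : ℤ → ℝ → ℝ} (hc : ∀ x, Continuous (D x)) (x : ℤ) (a b : ℝ) :
    IntervalIntegrable (rhs κ γ ξ D x) volume a b := by
  rcases le_total a b with h | h
  · exact rhs_int h hξm hξ (fun y => (hc y).continuousOn) x
  · exact (rhs_int h hξm hξ (fun y => (hc y).continuousOn) x).symm

theorem pic_cont (hξm : ∀ x, Measurable (ξ x)) (hξ : ∀ x s, ξ x s ∈ Icc (0 : ℝ) 1) (n : ℕ) :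
    ∀ x, Continuous (pic κ γ ξ n x) := by
  induction n with
  | zero => intro x; exact continuous_const
  | succ n ih =>
    intro x
    exact intervalIntegral.continuous_primitive (fun a b => rhs_locInt hξm hξ ih x a b) 0

theorem rhs_bound (hκ : 0 ≤ κ) (hγ : 0 ≤ γ) (hξ : ∀ x s, ξ x s ∈ Icc (0 : ℝ) 1)
    {D : ℤ → ℝ → ℝ} {s M : ℝ} (hD : ∀ x, |D x s| ≤ M) (x : ℤ) :
    |rhs κ γ ξ D x s| ≤ (4 * κ + γ) * M := by
  have hM : 0 ≤ M := (abs_nonneg _).trans (hD x)
  have h1 := abs_le.1 (hD (x + 1))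
  have h2 := abs_le.1 (hD (x - 1))
  have h3 := abs_le.1 (hD x)
  have h4 := hξ x s
  have h5 : |ξ x s * D x s| ≤ M := by
    rw [abs_mul, abs_of_nonneg h4.1]
    calc ξ x s * |D x s| ≤ 1 * M := mul_le_mul h4.2 (hD x) (abs_nonneg _) zero_le_one
      _ = M := one_mul M
  have h6 := abs_le.1 h5
  have h7 : |D (x + 1) s + D (x - 1) s - 2 * D x s| ≤ 4 * M := by
    rw [abs_le]; constructor <;> linarith [h1.1, h1.2, h2.1, h2.2, h3.1, h3.2]
  have h8 := abs_le.1 h7
  unfold rhs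
  rw [abs_le]
  constructor <;> nlinarith [h6.1, h6.2, h8.1, h8.2]

theorem pic_bound (hκ : 0 ≤ κ) (hγ : 0 ≤ γ)
    (hξ : ∀ x s, ξ x s ∈ Icc (0 : ℝ) 1) (n : ℕ) :
    ∀ x, ∀ t, 0 ≤ t → |pic κ γ ξ n x t| ≤ ((4 * κ + γ) * t) ^ n / n.factorial := by
  set K := 4 * κ + γ with hK
  have hK0 : 0 ≤ K := by positivity
  induction n with
  | zero =>
    intro x t _
    simp only [pic, pow_zero, Nat.factorial_zero, Nat.cast_one, div_one]
    split_ifs <;> norm_num
  | succ n ih =>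
    intro x t ht
    have h1 : ‖∫ s in (0 : ℝ)..t, rhs κ γ ξ (pic κ γ ξ n) x s‖ ≤
        ∫ s in (0 : ℝ)..t, K * ((K * s) ^ n / n.factorial) := by
      refine intervalIntegral.norm_integral_le_of_norm_le ht ?_
        (Continuous.intervalIntegrable (by fun_prop) _ _)
      refine Filter.Eventually.of_forall fun s hs => ?_
      exact rhs_bound hκ hγ hξ (fun y => ih y s hs.1.le) x
    have h2 : ∫ s in (0 : ℝ)..t, K * ((K * s) ^ n / n.factorial) =
        (K * t) ^ (n + 1) / (n + 1).factorial := by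
      have h6 : ∀ r : ℝ, K * ((K * r) ^ n / n.factorial) =
          (K ^ (n + 1) / n.factorial) * r ^ n := by
        intro r; rw [mul_pow]; ring
      simp only [h6]
      rw [intervalIntegral.integral_const_mul, integral_pow,
        zero_pow (Nat.succ_ne_zero n), sub_zero, Nat.factorial_succ, mul_pow]
      have : (n.factorial : ℝ) ≠ 0 := by positivity
      have : (n : ℝ) + 1 ≠ 0 := by positivity
      push_cast
      field_simp
    rw [← h2]
    exact h1

theorem pic_summable (hκ : 0 ≤ κ) (hγ : 0 ≤ γ)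
    (hξ : ∀ x s, ξ x s ∈ Icc (0 : ℝ) 1) (x : ℤ) {t : ℝ} (ht : 0 ≤ t) :
    Summable fun n => pic κ γ ξ n x t :=
  Summable.of_norm_bounded (Real.summable_pow_div_factorial ((4 * κ + γ) * t))
    fun n => pic_bound hκ hγ hξ n x t ht

theorem sol_bound (hκ : 0 ≤ κ) (hγ : 0 ≤ γ)
    (hξ : ∀ x s, ξ x s ∈ Icc (0 : ℝ) 1) (x : ℤ) {t : ℝ} (ht : 0 ≤ t) :
    |sol κ γ ξ x t| ≤ ∑' n : ℕ, ((4 * κ + γ) * t) ^ n / n.factorial := by
  unfold sol
  rw [← Real.norm_eq_abs]
  refine tsum_of_norm_bounded (Real.summable_pow_div_factorial ((4 * κ + γ) * t)).hasSum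
    fun n => ?_
  exact pic_bound hκ hγ hξ n x t ht

theorem sol_cont (hκ : 0 ≤ κ) (hγ : 0 ≤ γ) (hξm : ∀ x, Measurable (ξ x))
    (hξ : ∀ x s, ξ x s ∈ Icc (0 : ℝ) 1) (x : ℤ) (T : ℝ) :
    ContinuousOn (sol κ γ ξ x) (Icc 0 T) := by
  unfold sol
  refine continuousOn_tsum (u := fun n : ℕ => ((4 * κ + γ) * T) ^ n / n.factorial)
    (fun n => (pic_cont hξm hξ n x).continuousOn)
    (Real.summable_pow_div_factorial ((4 * κ + γ) * T)) fun n t ht => ?_
  refine (pic_bound hκ hγ hξ n x t ht.1).trans ?_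
  have : 0 ≤ (4 * κ + γ) * t := mul_nonneg (by positivity) ht.1
  have h2 : (4 * κ + γ) * t ≤ (4 * κ + γ) * T := mul_le_mul_of_nonneg_left ht.2 (by positivity)
  gcongr

theorem sol_isSol (hκ : 0 ≤ κ) (hγ : 0 ≤ γ) (hξm : ∀ x, Measurable (ξ x))
    (hξ : ∀ x s, ξ x s ∈ Icc (0 : ℝ) 1) : IsSol κ γ ξ (sol κ γ ξ) := by
  have hK0 : 0 ≤ 4 * κ + γ := by positivity
  refine ⟨fun x => ?_, fun T => ?_, fun x t ht => ?_⟩
  · intro t ht
    have ht' : 0 ≤ t := ht
    have h1 := sol_cont hκ hγ hξm hξ x (t + 1) t ⟨ht', by linarith⟩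
    refine h1.mono_of_mem_nhdsWithin ?_
    have h2 : Iio (t + 1) ∈ 𝓝 t := Iio_mem_nhds (by linarith)
    filter_upwards [self_mem_nhdsWithin, mem_nhdsWithin_of_mem_nhds h2] with s hs1 hs2
    exact ⟨hs1, (show s < t + 1 from hs2).le⟩
  · refine ⟨∑' n : ℕ, ((4 * κ + γ) * T) ^ n / n.factorial, fun x t ht => ?_⟩
    refine (sol_bound hκ hγ hξ x ht.1).trans ?_
    refine Summable.tsum_le_tsum (fun n => ?_)
      (Real.summable_pow_div_factorial ((4 * κ + γ) * t))
      (Real.summable_pow_div_factorial ((4 * κ + γ) * T))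
    have : 0 ≤ (4 * κ + γ) * t := mul_nonneg (by positivity) ht.1
    have h2 : (4 * κ + γ) * t ≤ (4 * κ + γ) * T := mul_le_mul_of_nonneg_left ht.2 (by positivity)
    gcongr
  · have h1 : HasSum (fun n => ∫ s in (0 : ℝ)..t, rhs κ γ ξ (pic κ γ ξ n) x s)
        (∫ s in (0 : ℝ)..t, rhs κ γ ξ (sol κ γ ξ) x s) := by
      refine intervalIntegral.hasSum_integral_of_dominated_convergence
        (fun n _ => (4 * κ + γ) * (((4 * κ + γ) * t) ^ n / n.factorial)) (fun n => ?_)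
        (fun n => ?_) ?_ ?_ ?_
      · have := rhs_locInt (κ := κ) (γ := γ) hξm hξ (pic_cont (κ := κ) (γ := γ) hξm hξ n) x 0 t
        rw [intervalIntegrable_iff] at this
        exact this.aestronglyMeasurable
      · refine Filter.Eventually.of_forall fun s hs => ?_
        rw [uIoc_of_le ht] at hs
        refine rhs_bound hκ hγ hξ (fun y => ?_) x
        refine (pic_bound hκ hγ hξ n y s hs.1.le).trans ?_
        have : 0 ≤ (4 * κ + γ) * s := mul_nonneg (by positivity) hs.1.le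
        have h2 : (4 * κ + γ) * s ≤ (4 * κ + γ) * t :=
          mul_le_mul_of_nonneg_left hs.2 (by positivity)
        gcongr
      · exact Filter.Eventually.of_forall fun s _ =>
          (Real.summable_pow_div_factorial ((4 * κ + γ) * t)).mul_left _
      · exact intervalIntegrable_const
      · refine Filter.Eventually.of_forall fun s hs => ?_
        rw [uIoc_of_le ht] at hs
        have e1 := (pic_summable hκ hγ hξ (x + 1) hs.1.le).hasSum
        have e2 := (pic_summable hκ hγ hξ (x - 1) hs.1.le).hasSum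
        have e3 := (pic_summable hκ hγ hξ x hs.1.le).hasSum
        exact (((e1.add e2).sub (e3.mul_left 2)).mul_left κ).add (e3.mul_left (γ * ξ x s))
    have h2 : sol κ γ ξ x t = pic κ γ ξ 0 x t + ∑' n, pic κ γ ξ (n + 1) x t := by
      unfold sol
      exact (pic_summable hκ hγ hξ x ht).tsum_eq_zero_add
    rw [h2]
    have h3 : ∑' n, pic κ γ ξ (n + 1) x t = ∫ s in (0 : ℝ)..t, rhs κ γ ξ (sol κ γ ξ) x s :=
      h1.tsum_eq
    rw [h3]
    rfl

end

section measurability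

variable {Ω : Type*} [MeasurableSpace Ω] {κ γ : ℝ} {Ξ : Ω → ℤ → ℝ → ℝ}

theorem pic_meas (hΞ : ∀ x, Measurable fun p : ℝ × Ω => Ξ p.2 x p.1)
    (hξ : ∀ ω x s, Ξ ω x s ∈ Icc (0 : ℝ) 1) (n : ℕ) :
    ∀ x, Measurable fun p : ℝ × Ω => pic κ γ (Ξ p.2) n x p.1 := by
  have hξm : ∀ ω x, Measurable (Ξ ω x) := fun ω x => (hΞ x).comp measurable_prodMk_right
  induction n with
  | zero => intro x; exact measurable_const
  | succ n ih =>
    intro x
    have hg : Measurable fun p : ℝ × Ω => rhs κ γ (Ξ p.2) (pic κ γ (Ξ p.2) n) x p.1 := by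
      unfold rhs
      have h1 := ih (x + 1)
      have h2 := ih (x - 1)
      have h3 := ih x
      have h4 := hΞ x
      exact (((h1.add h2).sub (h3.const_mul 2)).const_mul κ).add ((h4.const_mul γ).mul h3)
    refine measurable_uncurry_of_continuous_of_measurable
      (u := fun (t : ℝ) (ω : Ω) => pic κ γ (Ξ ω) (n + 1) x t) (fun ω => ?_) fun t => ?_
    · exact pic_cont (hξm ω) (hξ ω) (n + 1) x
    · change Measurable fun ω => ∫ s in (0 : ℝ)..t, rhs κ γ (Ξ ω) (pic κ γ (Ξ ω) n) x s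
      unfold intervalIntegral
      have e1 : StronglyMeasurable (Function.uncurry fun (s : ℝ) (ω : Ω) =>
          rhs κ γ (Ξ ω) (pic κ γ (Ξ ω) n) x s) := hg.stronglyMeasurable
      exact (e1.integral_prod_left (μ := volume.restrict (Ioc 0 t))).measurable.sub
        (e1.integral_prod_left (μ := volume.restrict (Ioc t 0))).measurable

theorem sol_meas (hΞ : ∀ x, Measurable fun p : ℝ × Ω => Ξ p.2 x p.1)
    (hξ : ∀ ω x s, Ξ ω x s ∈ Icc (0 : ℝ) 1) (x : ℤ) (t : ℝ) :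
    Measurable fun ω => sol κ γ (Ξ ω) x t := by
  unfold sol
  refine Measurable.tsum fun n => ?_
  exact (pic_meas hΞ hξ n x).comp measurable_prodMk_left

end measurability

end Q289.PAM
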