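import Pool.Agent.Q289.PAM.Comp

/-!
# The parabolic Anderson equation on `ℤ`: solutions, uniqueness, elementary bounds
-/

set_option autoImplicit false

open MeasureTheory Filter Topology Set

namespace Q289.PAM

/-- `u` solves `∂u/∂t = κ Δ u + γ ξ u`, `u(·,0) = δ₀` in integrated form and is bounded on
bounded time intervals -/
structure IsSol (κ γ : ℝ) (ξ u : ℤ → ℝ → ℝ) : Prop where
  cont : ∀ x, ContinuousOn (u x) (Ici 0)
  bdd : ∀ T : ℝ, ∃ B : ℝ, ∀ x, ∀ t ∈ Icc 0 T, |u x t| ≤ B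
  eqn : ∀ x, ∀ t, 0 ≤ t → u x t = (if x = 0 then 1 else 0) +
    ∫ s in (0 : ℝ)..t, (κ * (u (x + 1) s + u (x - 1) s - 2 * u x s) + γ * ξ x s * u x s)

section

variable {κ γ : ℝ} {ξ u : ℤ → ℝ → ℝ}

theorem IsSol.zero (h : IsSol κ γ ξ u) (x : ℤ) : u x 0 = if x = 0 then 1 else 0 := by
  rw [h.eqn x 0 le_rfl, intervalIntegral.integral_same, add_zero]

theorem IsSol.diff (h : IsSol κ γ ξ u) (hξm : ∀ x, Measurable (ξ x))
    (hξ : ∀ x s, ξ x s ∈ Icc (0 : ℝ) 1) (x : ℤ) {s t : ℝ} (hs : 0 ≤ s) (hst : s ≤ t) :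
    ∫ r in s..t, rhs κ γ ξ u x r = u x t - u x s := by
  have hc : ∀ a b : ℝ, 0 ≤ a → a ≤ b → IntervalIntegrable (rhs κ γ ξ u x) volume a b :=
    fun a b ha hab => rhs_int hab hξm hξ
      (fun y => (h.cont y).mono (fun z hz => ha.trans hz.1)) x
  rw [h.eqn x t (hs.trans hst), h.eqn x s hs]
  have := intervalIntegral.integral_add_adjacent_intervals (hc 0 s le_rfl hs) (hc s t hs hst)
  unfold rhs at this ⊢
  linarith

/-- a general comparison with a smooth subsolution -/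
theorem IsSol.ge_of_sub (h : IsSol κ γ ξ u) (hκ : 0 ≤ κ) (hγ : 0 ≤ γ)
    (hξm : ∀ x, Measurable (ξ x)) (hξ : ∀ x s, ξ x s ∈ Icc (0 : ℝ) 1) {s₀ s₁ : ℝ} (hs₀ : 0 ≤ s₀)
    {v v' : ℤ → ℝ → ℝ} (hv : ∀ x t, HasDerivAt (v x) (v' x t) t)
    (hv'c : ∀ x, Continuous (v' x)) (hvB : ∃ B, ∀ x, ∀ t ∈ Icc s₀ s₁, |v x t| ≤ B)
    (h0 : ∀ x, v x s₀ ≤ u x s₀)
    (hsub : ∀ x, ∀ t ∈ Icc s₀ s₁, v' x t ≤ rhs κ γ ξ v x t) :
    ∀ x, ∀ t ∈ Icc s₀ s₁, v x t ≤ u x t := by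
  obtain ⟨B₁, hB₁⟩ := hvB
  obtain ⟨B₂, hB₂⟩ := h.bdd s₁
  have hvc : ∀ x, Continuous (v x) := fun x =>
    continuous_iff_continuousAt.2 fun t => (hv x t).continuousAt
  have huc : ∀ x, ContinuousOn (u x) (Icc s₀ s₁) := fun x =>
    (h.cont x).mono fun z hz => hs₀.trans hz.1
  have hcomp := comp (κ := κ) (γ := γ) (ξ := ξ) (D := fun x t => u x t - v x t) (s₀ := s₀)
    (s₁ := s₁) (B := B₂ + B₁) hκ hγ hξm hξ (fun x => (huc x).sub (hvc x).continuousOn)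
    (fun x t ht => ?_) (fun x => sub_nonneg.2 (h0 x)) (fun x s t hs hst ht => ?_)
  · intro x t ht
    exact sub_nonneg.1 (hcomp x t ht)
  · have e1 := hB₁ x t ht
    have e2 := hB₂ x t ⟨hs₀.trans ht.1, ht.2⟩
    exact (abs_sub _ _).trans (add_le_add e2 e1)
  · have hst' : ∀ y, ContinuousOn (u y) (Icc s t) := fun y =>
      (h.cont y).mono fun z hz => (hs₀.trans hs).trans hz.1
    have i1 : IntervalIntegrable (rhs κ γ ξ u x) volume s t := rhs_int hst hξm hξ hst' x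
    have i2 : IntervalIntegrable (rhs κ γ ξ v x) volume s t :=
      rhs_int hst hξm hξ (fun y => (hvc y).continuousOn) x
    have i3 : IntervalIntegrable (v' x) volume s t := (hv'c x).intervalIntegrable _ _
    have e1 : ∫ r in s..t, v' x r = v x t - v x s :=
      intervalIntegral.integral_eq_sub_of_hasDerivAt (fun r _ => hv x r) i3
    have e2 := h.diff hξm hξ x (hs₀.trans hs) hst
    have e3 : ∫ r in s..t, v' x r ≤ ∫ r in s..t, rhs κ γ ξ v x r :=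
      intervalIntegral.integral_mono_on hst i3 i2 fun r hr =>
        hsub x r ⟨hs.trans hr.1, hr.2.trans ht⟩
    have e4 : ∫ r in s..t, rhs κ γ ξ (fun x t => u x t - v x t) x r =
        (∫ r in s..t, rhs κ γ ξ u x r) - ∫ r in s..t, rhs κ γ ξ v x r := by
      rw [← intervalIntegral.integral_sub i1 i2]
      congr 1
      ext r
      unfold rhs
      ring
    rw [e4, e2]
    linarith

/-- a general comparison with a smooth supersolution -/
theorem IsSol.le_of_super (h : IsSol κ γ ξ u) (hκ : 0 ≤ κ) (hγ : 0 ≤ γ)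
    (hξm : ∀ x, Measurable (ξ x)) (hξ : ∀ x s, ξ x s ∈ Icc (0 : ℝ) 1) {s₀ s₁ : ℝ} (hs₀ : 0 ≤ s₀)
    {v v' : ℤ → ℝ → ℝ} (hv : ∀ x t, HasDerivAt (v x) (v' x t) t)
    (hv'c : ∀ x, Continuous (v' x)) (hvB : ∃ B, ∀ x, ∀ t ∈ Icc s₀ s₁, |v x t| ≤ B)
    (h0 : ∀ x, u x s₀ ≤ v x s₀)
    (hsub : ∀ x, ∀ t ∈ Icc s₀ s₁, rhs κ γ ξ v x t ≤ v' x t) :
    ∀ x, ∀ t ∈ Icc s₀ s₁, u x t ≤ v x t := by
  obtain ⟨B₁, hB₁⟩ := hvB
  obtain ⟨B₂, hB₂⟩ := h.bdd s₁
  have hvc : ∀ x, Continuous (v x) := fun x =>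
    continuous_iff_continuousAt.2 fun t => (hv x t).continuousAt
  have huc : ∀ x, ContinuousOn (u x) (Icc s₀ s₁) := fun x =>
    (h.cont x).mono fun z hz => hs₀.trans hz.1
  have hcomp := comp (κ := κ) (γ := γ) (ξ := ξ) (D := fun x t => v x t - u x t) (s₀ := s₀)
    (s₁ := s₁) (B := B₁ + B₂) hκ hγ hξm hξ (fun x => (hvc x).continuousOn.sub (huc x))
    (fun x t ht => ?_) (fun x => sub_nonneg.2 (h0 x)) (fun x s t hs hst ht => ?_)
  · intro x t ht
    exact sub_nonneg.1 (hcomp x t ht)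
  · have e1 := hB₁ x t ht
    have e2 := hB₂ x t ⟨hs₀.trans ht.1, ht.2⟩
    exact (abs_sub _ _).trans (add_le_add e1 e2)
  · have hst' : ∀ y, ContinuousOn (u y) (Icc s t) := fun y =>
      (h.cont y).mono fun z hz => (hs₀.trans hs).trans hz.1
    have i1 : IntervalIntegrable (rhs κ γ ξ u x) volume s t := rhs_int hst hξm hξ hst' x
    have i2 : IntervalIntegrable (rhs κ γ ξ v x) volume s t :=
      rhs_int hst hξm hξ (fun y => (hvc y).continuousOn) x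
    have i3 : IntervalIntegrable (v' x) volume s t := (hv'c x).intervalIntegrable _ _
    have e1 : ∫ r in s..t, v' x r = v x t - v x s :=
      intervalIntegral.integral_eq_sub_of_hasDerivAt (fun r _ => hv x r) i3
    have e2 := h.diff hξm hξ x (hs₀.trans hs) hst
    have e3 : ∫ r in s..t, rhs κ γ ξ v x r ≤ ∫ r in s..t, v' x r :=
      intervalIntegral.integral_mono_on hst i2 i3 fun r hr =>
        hsub x r ⟨hs.trans hr.1, hr.2.trans ht⟩
    have e4 : ∫ r in s..t, rhs κ γ ξ (fun x t => v x t - u x t) x r =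
        (∫ r in s..t, rhs κ γ ξ v x r) - ∫ r in s..t, rhs κ γ ξ u x r := by
      rw [← intervalIntegral.integral_sub i2 i1]
      congr 1
      ext r
      unfold rhs
      ring
    rw [e4, e2]
    linarith

/-- uniqueness (one inequality) -/
theorem IsSol.le {v : ℤ → ℝ → ℝ} (hu : IsSol κ γ ξ u) (hv : IsSol κ γ ξ v) (hκ : 0 ≤ κ)
    (hγ : 0 ≤ γ) (hξm : ∀ x, Measurable (ξ x)) (hξ : ∀ x s, ξ x s ∈ Icc (0 : ℝ) 1) (x : ℤ) {t : ℝ}
    (ht : 0 ≤ t) : v x t ≤ u x t := by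
  obtain ⟨B₁, hB₁⟩ := hv.bdd t
  obtain ⟨B₂, hB₂⟩ := hu.bdd t
  have hcomp := comp (κ := κ) (γ := γ) (ξ := ξ) (D := fun x t => u x t - v x t) (s₀ := 0)
    (s₁ := t) (B := B₂ + B₁) hκ hγ hξm hξ
    (fun x => ((hu.cont x).mono fun z hz => hz.1).sub ((hv.cont x).mono fun z hz => hz.1))
    (fun x s hs => (abs_sub _ _).trans (add_le_add (hB₂ x s hs) (hB₁ x s hs)))
    (fun x => by rw [hu.zero, hv.zero, sub_self]) (fun x s r hs hsr hr => ?_)
  · exact sub_nonneg.1 (hcomp x t ⟨ht, le_rfl⟩)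
  · have i1 : IntervalIntegrable (rhs κ γ ξ u x) volume s r :=
      rhs_int hsr hξm hξ (fun y => (hu.cont y).mono fun z hz => hs.trans hz.1) x
    have i2 : IntervalIntegrable (rhs κ γ ξ v x) volume s r :=
      rhs_int hsr hξm hξ (fun y => (hv.cont y).mono fun z hz => hs.trans hz.1) x
    have e1 := hu.diff hξm hξ x hs hsr
    have e2 := hv.diff hξm hξ x hs hsr
    have e4 : ∫ r in s..r, rhs κ γ ξ (fun x t => u x t - v x t) x r =
        (∫ r in s..r, rhs κ γ ξ u x r) - ∫ r in s..r, rhs κ γ ξ v x r := by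
      rw [← intervalIntegral.integral_sub i1 i2]
      congr 1
      ext r
      unfold rhs
      ring
    rw [e4, e1, e2]
    linarith

/-- solutions are nonnegative -/
theorem IsSol.nonneg (hu : IsSol κ γ ξ u) (hκ : 0 ≤ κ)
    (hγ : 0 ≤ γ) (hξm : ∀ x, Measurable (ξ x)) (hξ : ∀ x s, ξ x s ∈ Icc (0 : ℝ) 1) (x : ℤ) {t : ℝ}
    (ht : 0 ≤ t) : 0 ≤ u x t := by
  refine hu.ge_of_sub hκ hγ hξm hξ le_rfl (v := fun _ _ => 0) (v' := fun _ _ => 0)
    (fun x t => hasDerivAt_const t 0) (fun x => continuous_const) ⟨0, by simp⟩ (fun y => ?_)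
    (fun y s _ => ?_) x t ⟨ht, le_rfl⟩
  · rw [hu.zero]; split_ifs <;> norm_num
  · unfold rhs; simp

/-- the a priori upper bound -/
theorem IsSol.le_exp (hu : IsSol κ γ ξ u) (hκ : 0 ≤ κ)
    (hγ : 0 ≤ γ) (hξm : ∀ x, Measurable (ξ x)) (hξ : ∀ x s, ξ x s ∈ Icc (0 : ℝ) 1) (x : ℤ) {t : ℝ}
    (ht : 0 ≤ t) : u x t ≤ Real.exp (γ * t) := by
  refine hu.le_of_super hκ hγ hξm hξ le_rfl (v := fun _ s => Real.exp (γ * s))
    (v' := fun _ s => γ * Real.exp (γ * s)) (fun x t => ?_) (fun x => by fun_prop)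
    ⟨Real.exp (γ * t), fun y s hs => ?_⟩ (fun y => ?_) (fun y s _ => ?_) x t ⟨ht, le_rfl⟩
  · have := ((hasDerivAt_id t).const_mul γ).exp
    simp only [id, mul_one] at this
    rw [mul_comm]
    exact this
  · rw [abs_of_pos (Real.exp_pos _)]
    exact Real.exp_le_exp.2 (mul_le_mul_of_nonneg_left hs.2 hγ)
  · rw [hu.zero, mul_zero, Real.exp_zero]; split_ifs <;> norm_num
  · unfold rhs
    have h1 := (hξ y s).2
    have h2 := Real.exp_pos (γ * s)
    have h3 : γ * ξ y s ≤ γ := by nlinarith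
    nlinarith

end

end Q289.PAM
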