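import Mathlib

/-!
# Ergodicity of translations of the infinite torus
-/

set_option autoImplicit false

open MeasureTheory Filter Topology Set BoundedContinuousFunction

namespace Q289.PAM

/-- the infinite torus -/
abbrev Om : Type := ℕ → UnitAddCircle

instance : IsProbabilityMeasure (volume : Measure UnitAddCircle) := ⟨UnitAddCircle.measure_univ⟩

/-- the uniform distribution on the infinite torus -/
noncomputable def PT : Measure Om := Measure.infinitePi fun _ => (volume : Measure UnitAddCircle)

noncomputable instance : IsProbabilityMeasure PT := by unfold PT; infer_instance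

/-- translation by `c` -/
def sh (c ω : Om) : Om := fun n => ω n + c n

theorem sh_meas (c : Om) : Measurable (sh c) := by
  unfold sh
  fun_prop

theorem sh_mp (c : Om) : MeasurePreserving (sh c) PT PT := by
  refine ⟨sh_meas c, ?_⟩
  unfold PT sh
  rw [Measure.infinitePi_map_pi (f := fun n x => x + c n) _ (fun n => by fun_prop)]
  congr 1
  ext n : 1
  exact (measurePreserving_add_right volume (c n)).map_eq

/-- characters -/
noncomputable def chi (k : ℕ →₀ ℤ) (ω : Om) : ℂ :=
  ((k.sum fun n m => m • ω n : UnitAddCircle).toCircle : ℂ)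

theorem chi_zero (ω : Om) : chi 0 ω = 1 := by
  unfold chi
  rw [Finsupp.sum_zero_index, AddCircle.toCircle_zero]
  rfl

theorem chi_add (k l : ℕ →₀ ℤ) (ω : Om) : chi (k + l) ω = chi k ω * chi l ω := by
  unfold chi
  rw [Finsupp.sum_add_index' (fun n => zero_zsmul _) (fun n a b => add_zsmul _ _ _),
    AddCircle.toCircle_add, Circle.coe_mul]

theorem chi_sh (k : ℕ →₀ ℤ) (c ω : Om) : chi k (sh c ω) = chi k ω * chi k c := by
  unfold chi sh
  rw [← Circle.coe_mul, ← AddCircle.toCircle_add, ← Finsupp.sum_add]
  congr 2
  apply Finsupp.sum_congr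
  intro n _
  exact zsmul_add _ _ _

theorem chi_neg (k : ℕ →₀ ℤ) (ω : Om) : chi (-k) ω = star (chi k ω) := by
  have h1 : chi (-k) ω * chi k ω = 1 := by
    rw [← chi_add, neg_add_cancel, chi_zero]
  have h2 : star (chi k ω) * chi k ω = 1 := by
    unfold chi
    rw [mul_comm, Complex.star_def, Complex.mul_conj, Circle.normSq_coe]
    rfl
  have h3 : chi k ω ≠ 0 := by
    unfold chi
    exact Circle.coe_ne_zero _
  exact mul_right_cancel₀ h3 (h1.trans h2.symm)

theorem chi_cont (k : ℕ →₀ ℤ) : Continuous (chi k) := by
  unfold chi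
  have h : Continuous fun ω : Om => (k.sum fun n m => m • ω n : UnitAddCircle) := by
    unfold Finsupp.sum
    refine continuous_finsetSum _ fun n _ => ?_
    exact (continuous_apply n).zsmul _
  exact continuous_subtype_val.comp (AddCircle.continuous_toCircle.comp h)

/-- the characters as bounded continuous functions -/
noncomputable def chiB (k : ℕ →₀ ℤ) : Om →ᵇ ℂ := mkOfCompact ⟨chi k, chi_cont k⟩

@[simp] theorem chiB_apply (k : ℕ →₀ ℤ) (ω : Om) : chiB k ω = chi k ω := rfl

/-- trigonometric polynomials -/
noncomputable def trig : StarSubalgebra ℂ (Om →ᵇ ℂ) where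
  carrier := Submodule.span ℂ (range chiB)
  mul_mem' := by
    intro f g hf hg
    have h1 : f * g ∈ Submodule.span ℂ (range chiB) * Submodule.span ℂ (range chiB) :=
      Submodule.mul_mem_mul hf hg
    rw [Submodule.span_mul_span] at h1
    refine Submodule.span_mono ?_ h1
    rintro _ ⟨_, ⟨k, rfl⟩, _, ⟨l, rfl⟩, rfl⟩
    refine ⟨k + l, ?_⟩
    ext ω
    simp [chi_add]
  one_mem' := by
    apply Submodule.subset_span
    refine ⟨0, ?_⟩
    ext ω
    simp [chi_zero]
  add_mem' := fun hf hg => Submodule.add_mem _ hf hg
  zero_mem' := Submodule.zero_mem _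
  algebraMap_mem' := by
    intro r
    rw [Algebra.algebraMap_eq_smul_one]
    apply Submodule.smul_mem
    apply Submodule.subset_span
    refine ⟨0, ?_⟩
    ext ω
    simp [chi_zero]
  star_mem' := by
    intro f hf
    have hf' : f ∈ Submodule.span ℂ (range chiB) := hf
    change star f ∈ Submodule.span ℂ (range chiB)
    induction hf' using Submodule.span_induction with
    | mem x h =>
      obtain ⟨k, rfl⟩ := h
      apply Submodule.subset_span
      refine ⟨-k, ?_⟩
      ext ω
      simp [chi_neg]
    | zero => rw [star_zero]; exact Submodule.zero_mem _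
    | add x y _ _ hx hy =>
      rw [star_add]
      exact Submodule.add_mem _ (hx (by assumption)) (hy (by assumption))
    | smul a x _ hx =>
      rw [star_smul]
      exact Submodule.smul_mem _ _ (hx (by assumption))

theorem trig_sep : (trig.map (toContinuousMapStarₐ ℂ)).SeparatesPoints := by
  intro ω ω' hne
  obtain ⟨n, hn⟩ := Function.ne_iff.1 hne
  refine ⟨chi (Finsupp.single n 1), ?_, ?_⟩
  · refine ⟨(toContinuousMapStarₐ ℂ (chiB (Finsupp.single n 1))), ?_, rfl⟩
    exact ⟨chiB (Finsupp.single n 1), Submodule.subset_span ⟨_, rfl⟩, rfl⟩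
  · intro h
    apply hn
    apply AddCircle.injective_toCircle one_ne_zero
    unfold chi at h
    rw [Finsupp.sum_single_index (zero_zsmul _), Finsupp.sum_single_index (zero_zsmul _),
      one_zsmul, one_zsmul] at h
    exact Circle.coe_injective h

/-- integrals of nontrivial characters over an invariant set vanish -/
theorem int_chi_zero {A : Set Om} (hA : MeasurableSet A) {k : ℕ →₀ ℤ} {c : Om}
    (hinv : sh c ⁻¹' A =ᵐ[PT] A) (hc : chi k c ≠ 1) : ∫ ω in A, chi k ω ∂PT = 0 := by
  have hmp := sh_mp c
  have h1 : ∫ ω in sh c ⁻¹' A, chi k (sh c ω) ∂PT = ∫ ω in A, chi k ω ∂PT := by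
    rw [← hmp.map_eq]
    conv_rhs => rw [setIntegral_map hA (chi_cont k).aestronglyMeasurable (sh_meas c).aemeasurable]
    rw [hmp.map_eq]
  rw [setIntegral_congr_set hinv] at h1
  simp only [chi_sh] at h1
  rw [integral_mul_const] at h1
  have h2 : (∫ ω in A, chi k ω ∂PT) * (chi k c - 1) = 0 := by
    rw [mul_sub, mul_one, h1, sub_self]
  rcases mul_eq_zero.1 h2 with h3 | h3
  · exact h3
  · exact absurd (sub_eq_zero.1 h3) hc

/-- Ergodicity: if a set of translations is not annihilated by any nontrivial character, then the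
invariant sets are trivial. -/
theorem ergodic_of {C : Set Om} (hC : ∀ k : ℕ →₀ ℤ, k ≠ 0 → ∃ c ∈ C, chi k c ≠ 1) {A : Set Om}
    (hA : MeasurableSet A) (hinv : ∀ c ∈ C, sh c ⁻¹' A =ᵐ[PT] A) : PT A = 0 ∨ PT A = 1 := by
  have hPA : PT A ≠ ⊤ := measure_ne_top _ _
  have hfin : IsFiniteMeasure (PT A • PT) := ⟨by
    rw [Measure.smul_apply, smul_eq_mul, measure_univ, mul_one]
    exact lt_top_iff_ne_top.2 hPA⟩
  have hext : PT.restrict A = PT A • PT := by
    refine ext_of_forall_mem_subalgebra_integral_eq_of_polish (𝕜 := ℂ) trig_sep fun g hg => ?_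
    have hg' : g ∈ Submodule.span ℂ (range chiB) := hg
    induction hg' using Submodule.span_induction with
    | mem x h =>
      obtain ⟨k, rfl⟩ := h
      simp only [chiB_apply]
      by_cases hk : k = 0
      · subst hk
        simp only [chi_zero, integral_const, Measure.real, Measure.smul_apply, smul_eq_mul,
          measure_univ, mul_one, Measure.restrict_apply MeasurableSet.univ, univ_inter]
      · obtain ⟨c, hcC, hc⟩ := hC k hk
        rw [int_chi_zero hA (hinv c hcC) hc, integral_smul_measure]
        have h2 := int_chi_zero (A := univ) MeasurableSet.univ (k := k) (c := c) (by simp) hc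
        rw [setIntegral_univ] at h2
        rw [h2, smul_zero]
    | zero => simp
    | add x y _ _ hx hy =>
      have e : ∀ (μ : Measure Om) [IsFiniteMeasure μ] (z : Om →ᵇ ℂ), Integrable (fun ω => z ω) μ :=
        fun μ _ z => z.integrable μ
      simp only [BoundedContinuousFunction.coe_add, Pi.add_apply]
      rw [integral_add (e _ x) (e _ y), integral_add (e _ x) (e _ y), hx (by assumption),
        hy (by assumption)]
    | smul a x _ hx =>
      simp only [BoundedContinuousFunction.coe_smul]
      rw [integral_smul, integral_smul, hx (by assumption)]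
  have h3 : PT A = PT A * PT A := by
    have := congrArg (fun μ : Measure Om => μ A) hext
    simp only [Measure.restrict_apply hA, inter_self, Measure.smul_apply, smul_eq_mul] at this
    exact this
  by_cases h0 : PT A = 0
  · exact Or.inl h0
  · right
    have h4 : PT A * 1 = PT A * PT A := by rw [mul_one]; exact h3
    exact ((ENNReal.mul_right_inj h0 hPA).1 h4).symm

end Q289.PAM
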