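import Pool.Agent.Q289.PAM.Field

/-!
# The growth rate in the field
-/

set_option autoImplicit false

open MeasureTheory Filter Topology Set

namespace Q289.PAM

/-- period of the `n`-th scale in space -/
noncomputable def LL (α : ℝ) (n : ℕ) : ℝ := (α ^ (n + 1))⁻¹

/-- slab length of the `n`-th scale -/
noncomputable def tt (α : ℝ) (n : ℕ) : ℝ := LL α n ^ 2

/-- window size of the `n`-th scale -/
noncomputable def ww (α : ℝ) (n : ℕ) : ℕ := ⌊qq n * LL α n⌋₊ - 1

section

variable {α : ℝ}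

theorem LL_ge (h0 : 0 < α) (h1 : α < 1 / 100) (n : ℕ) : 100 ^ (n + 1) ≤ LL α n := by
  unfold LL
  rw [← inv_pow]
  apply pow_le_pow_left₀ (by norm_num)
  rw [le_inv_comm₀ (by norm_num) h0]
  norm_num
  linarith

theorem qL_ge (h0 : 0 < α) (h1 : α < 1 / 100) (n : ℕ) : 25 ^ (n + 1) ≤ qq n * LL α n := by
  have h2 := LL_ge h0 h1 n
  unfold qq
  calc (25 : ℝ) ^ (n + 1) = (1 / 4) ^ (n + 1) * 100 ^ (n + 1) := by
        rw [← mul_pow]; norm_num
    _ ≤ _ := mul_le_mul_of_nonneg_left h2 (by positivity)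

theorem ww_ge (h0 : 0 < α) (h1 : α < 1 / 100) (n : ℕ) : n + 1 ≤ ww α n := by
  have h2 : 25 ^ (n + 1) ≤ ⌊qq n * LL α n⌋₊ := by
    apply Nat.le_floor
    push_cast
    exact qL_ge h0 h1 n
  have h3 : n + 2 ≤ 25 ^ (n + 1) := by
    have : ∀ m : ℕ, m + 2 ≤ 25 ^ (m + 1) := by
      intro m
      induction m with
      | zero => norm_num
      | succ m ih => rw [pow_succ]; omega
    exact this n
  unfold ww
  omega

theorem ww_le (h0 : 0 < α) (h1 : α < 1 / 100) (n : ℕ) :
    (ww α n : ℝ) ≤ qq n * LL α n - 1 := by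
  have h2 := ww_ge h0 h1 n
  have h3 : (ww α n : ℝ) + 1 = ⌊qq n * LL α n⌋₊ := by
    have : ww α n + 1 = ⌊qq n * LL α n⌋₊ := by unfold ww at h2 ⊢; omega
    exact_mod_cast this
  have h4 : 0 ≤ qq n * LL α n := by
    have := qL_ge h0 h1 n
    have h5 : (0 : ℝ) < 25 ^ (n + 1) := by positivity
    linarith
  have h5 := Nat.floor_le h4
  linarith

/-- the moving windows -/
theorem window (h0 : 0 < α) (h1 : α < 1 / 100) (ω : Om) (n : ℕ) :
    ∃ a : ℤ, ∀ j : ℕ, ∀ x : ℤ, a - j < x → x ≤ a - j + ww α n →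
      ∀ t ∈ Icc (j * tt α n) ((j + 1) * tt α n), fld α ω x t = 1 := by
  obtain ⟨ψ, hψ⟩ : ∃ ψ : ℝ, (ψ : UnitAddCircle) = ω n := QuotientAddGroup.mk_surjective (ω n)
  set L := LL α n with hL
  set q := qq n with hq
  have hL0 : 0 < L := by
    have := LL_ge h0 h1 n
    have h5 : (0 : ℝ) < 100 ^ (n + 1) := by positivity
    linarith
  have hτ0 : 0 < tt α n := by unfold tt; positivity
  refine ⟨⌈-L * ψ - q * L / 2⌉ - 1, fun j x hx1 hx2 t ht => ?_⟩
  set a : ℤ := ⌈-L * ψ - q * L / 2⌉ - 1 with ha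
  have ha1 : (a : ℝ) < -L * ψ - q * L / 2 := by
    have := Int.ceil_lt_add_one (-L * ψ - q * L / 2)
    rw [ha]; push_cast; linarith
  have ha2 : -L * ψ - q * L / 2 ≤ a + 1 := by
    have := Int.le_ceil (-L * ψ - q * L / 2)
    rw [ha]; push_cast; linarith
  have hx1' : (a : ℝ) - j + 1 ≤ x := by exact_mod_cast hx1
  have hx2' : (x : ℝ) ≤ a - j + ww α n := by exact_mod_cast hx2
  have hw := ww_le h0 h1 n
  rw [← hL, ← hq] at hw
  -- time
  set y : ℝ := t / tt α n with hy
  have hy1 : (j : ℝ) ≤ y := by rw [hy, le_div_iff₀ hτ0]; exact ht.1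
  have hy2 : y ≤ j + 1 := by rw [hy, div_le_iff₀ hτ0]; exact ht.2
  have hkey : |L * ψ + y + x| ≤ q * L / 2 := by
    rw [abs_le]; constructor <;> linarith
  have hα : α ^ (n + 1) = 1 / L := by rw [hL]; unfold LL; rw [one_div, inv_inv]
  have hα3 : t * α ^ (3 * (n + 1)) = y / L := by
    rw [mul_comm 3, pow_mul, hα, hy]
    unfold tt
    rw [← hL]
    field_simp
  have hmem : sh (st α x t) ω ∈ Act := by
    refine ⟨n, ?_⟩
    rw [mem_closedBall_zero_iff]
    have h2 : sh (st α x t) ω n = ((ψ + (x / L + y / L) : ℝ) : UnitAddCircle) := by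
      unfold sh st
      rw [← hψ, ← AddCircle.coe_add, hα, hα3]
      congr 2
      ring
    rw [h2, UnitAddCircle.norm_eq]
    have h3 := round_le (ψ + (x / L + y / L)) 0
    rw [Int.cast_zero, sub_zero] at h3
    refine h3.trans ?_
    have h4 : ψ + (x / L + y / L) = (L * ψ + y + x) / L := by field_simp; ring
    rw [h4, abs_div, abs_of_pos hL0, div_le_iff₀ hL0]
    linarith
  unfold fld
  rw [indicator_of_mem hmem]

theorem tt_ge (h0 : 0 < α) (h1 : α < 1 / 100) (n : ℕ) : 2 ≤ tt α n := by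
  unfold tt
  have h2 := LL_ge h0 h1 n
  have h3 : (100 : ℝ) ≤ 100 ^ (n + 1) := by
    rw [pow_succ]
    have : (1 : ℝ) ≤ 100 ^ n := one_le_pow₀ (by norm_num)
    linarith
  nlinarith

theorem rate_tendsto (h0 : 0 < α) (h1 : α < 1 / 100) (κ γ : ℝ) :
    Tendsto (fun n => gg κ γ (tt α n) (ww α n) / (tt α n + 1)) atTop (𝓝 γ) := by
  have hLt : Tendsto (LL α) atTop atTop := by
    refine tendsto_atTop_mono (fun n => LL_ge h0 h1 n) ?_
    exact (tendsto_pow_atTop_atTop_of_one_lt (by norm_num : (1 : ℝ) < 100)).comp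
      (tendsto_add_atTop_nat 1)
  have hL0 : ∀ n, 1 ≤ LL α n := fun n => by
    have := LL_ge h0 h1 n
    have h3 : (1 : ℝ) ≤ 100 ^ (n + 1) := one_le_pow₀ (by norm_num)
    linarith
  have htt : Tendsto (tt α) atTop atTop := by
    unfold tt
    exact (tendsto_pow_atTop two_ne_zero).comp hLt
  have htt1 : Tendsto (fun n => tt α n + 1) atTop atTop := tendsto_atTop_add_const_right _ _ htt
  have hinv : Tendsto (fun n => (tt α n + 1)⁻¹) atTop (𝓝 0) := tendsto_inv_atTop_zero.comp htt1
  have hfr : Tendsto (fun n => (tt α n - 1) / (tt α n + 1)) atTop (𝓝 1) := by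
    have h2 : Tendsto (fun n => 1 - 2 * (tt α n + 1)⁻¹) atTop (𝓝 1) := by
      have := (hinv.const_mul 2).const_sub 1
      simpa using this
    refine h2.congr fun n => ?_
    have := tt_ge h0 h1 n
    have : tt α n + 1 ≠ 0 := by linarith
    field_simp
    ring
  have hww : Tendsto (fun n => ((ww α n : ℝ) + 1)) atTop atTop := by
    refine tendsto_atTop_mono (fun n => ?_) tendsto_natCast_atTop_atTop
    have := ww_ge h0 h1 n
    have h3 : ((n + 1 : ℕ) : ℝ) ≤ ww α n := by exact_mod_cast this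
    push_cast at h3
    linarith
  have hang : Tendsto (fun n => Real.pi / ((ww α n : ℝ) + 1)) atTop (𝓝 0) :=
    hww.const_div_atTop Real.pi
  have hlam : Tendsto (fun n => lam κ γ (ww α n)) atTop (𝓝 γ) := by
    unfold lam
    have h2 := ((Real.continuous_cos.tendsto 0).comp hang)
    have h3 := (((h2.const_mul 2).const_sub 2).const_mul κ).const_sub γ
    simpa using h3
  have hlog : Tendsto (fun n => Real.log (Real.sin (Real.pi / ((ww α n : ℝ) + 1))) /
      (tt α n + 1)) atTop (𝓝 0) := by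
    have hlow : Tendsto (fun n => -(LL α n)⁻¹) atTop (𝓝 0) := by
      have := (tendsto_inv_atTop_zero.comp hLt).neg
      simpa using this
    refine tendsto_of_tendsto_of_tendsto_of_le_of_le hlow tendsto_const_nhds (fun n => ?_)
      fun n => ?_
    · have hw1 : 1 ≤ ww α n := by have := ww_ge h0 h1 n; omega
      have hw1' : (1 : ℝ) ≤ ww α n := by exact_mod_cast hw1
      have hpi := Real.pi_pos
      have h2 : 2 / Real.pi * (Real.pi / ((ww α n : ℝ) + 1)) ≤
          Real.sin (Real.pi / ((ww α n : ℝ) + 1)) := by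
        apply Real.mul_le_sin (by positivity)
        rw [div_le_div_iff₀ (by positivity) (by norm_num)]
        nlinarith
      have h3 : ((ww α n : ℝ) + 1)⁻¹ ≤ Real.sin (Real.pi / ((ww α n : ℝ) + 1)) := by
        refine le_trans ?_ h2
        have : 2 / Real.pi * (Real.pi / ((ww α n : ℝ) + 1)) = 2 * ((ww α n : ℝ) + 1)⁻¹ := by
          field_simp
        rw [this]
        have : 0 < ((ww α n : ℝ) + 1)⁻¹ := by positivity
        linarith
      have h4 : -((ww α n : ℝ) + 1) ≤ Real.log (Real.sin (Real.pi / ((ww α n : ℝ) + 1))) := by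
        refine le_trans ?_ (Real.log_le_log (by positivity) h3)
        rw [Real.log_inv]
        have := Real.log_le_sub_one_of_pos (show 0 < (ww α n : ℝ) + 1 by positivity)
        linarith
      have h5 : (ww α n : ℝ) + 1 ≤ LL α n := by
        have := ww_le h0 h1 n
        have hq : qq n ≤ 1 := by unfold qq; exact pow_le_one₀ (by norm_num) (by norm_num)
        have := hL0 n
        nlinarith
      have h6 : (0 : ℝ) < tt α n + 1 := by have := tt_ge h0 h1 n; linarith
      rw [le_div_iff₀ h6]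
      refine le_trans ?_ h4
      have h7 : -(LL α n)⁻¹ * (tt α n + 1) ≤ -LL α n := by
        unfold tt
        have h8 : 0 < LL α n := by linarith [hL0 n]
        have h9 : -(LL α n)⁻¹ * (LL α n ^ 2 + 1) = -LL α n - (LL α n)⁻¹ := by
          field_simp
          ring
        rw [h9]
        have : 0 < (LL α n)⁻¹ := by positivity
        linarith
      linarith
    · have h6 : (0 : ℝ) < tt α n + 1 := by have := tt_ge h0 h1 n; linarith
      have h7 : Real.log (Real.sin (Real.pi / ((ww α n : ℝ) + 1))) ≤ 0 :=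
        Real.log_nonpos (sin_pos' (by have := ww_ge h0 h1 n; omega)).le (Real.sin_le_one _)
      exact div_nonpos_of_nonpos_of_nonneg h7 h6.le
  have hall := ((hlam.mul hfr).add hlog).add (hinv.const_mul (2 * Real.log (bet κ)))
  rw [mul_one, add_zero, mul_zero, add_zero] at hall
  refine hall.congr fun n => ?_
  unfold gg
  rw [add_div, add_div, mul_div_assoc]
  congr 1

theorem fld_meas' (α : ℝ) (ω : Om) (x : ℤ) : Measurable (fld α ω x) := by
  have h : Measurable fun t : ℝ => ((t, ω) : ℝ × Om) := measurable_prodMk_right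
  have h2 := (fld_meas α x).comp h
  change Measurable fun t => fld α ω x t
  exact h2

/-- the quenched Lyapunov exponent is `γ`, for every realization -/
theorem lyapunov (h0 : 0 < α) (h1 : α < 1 / 100) {κ γ : ℝ} (hκ : 0 < κ) (hγ : 0 < γ) (ω : Om)
    {u : ℤ → ℝ → ℝ} (hu : IsSol κ γ (fld α ω) u) :
    Tendsto (fun t => Real.log (u 0 t) / t) atTop (𝓝 γ) := by
  have hξm : ∀ x, Measurable (fld α ω x) := fld_meas' α ω
  have hξ : ∀ x s, fld α ω x s ∈ Icc (0 : ℝ) 1 := fld_mem α ω
  rw [Metric.tendsto_nhds]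
  intro ε hε
  -- choose the scale
  obtain ⟨n, hn⟩ := ((rate_tendsto h0 h1 κ γ).eventually
    (lt_mem_nhds (show γ - ε / 2 < γ by linarith))).exists
  obtain ⟨a, ha⟩ := window h0 h1 ω n
  have hw1 : 1 ≤ ww α n := le_trans (Nat.succ_le_succ (Nat.zero_le n)) (ww_ge h0 h1 n)
  have hτ2 : 2 ≤ tt α n := tt_ge h0 h1 n
  generalize ww α n = w at ha hn hw1
  generalize tt α n = τ at ha hn hτ2
  obtain ⟨K, hK⟩ := IsSol.growth (w := w) (τ := τ) (a := a) hu hκ hγ.le hξm hξ hw1 hτ2 ha
  filter_upwards [hK, eventually_gt_atTop 0, eventually_ge_atTop (4 * |K| / ε)] with t ht1 ht2 ht3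
  have h2 : Real.log (u 0 t) ≤ γ * t := by
    have := hu.le_exp hκ.le hγ.le hξm hξ 0 ht2.le
    rw [← Real.log_exp (γ * t)]
    exact Real.log_le_log ht1.1 this
  have h3 := ht1.2
  have h4 : (γ - ε / 2) * t ≤ gg κ γ τ w / (τ + 1) * t :=
    mul_le_mul_of_nonneg_right hn.le ht2.le
  have h5 : K ≤ ε / 4 * t := by
    rw [div_le_iff₀ hε] at ht3
    have := le_abs_self K
    nlinarith
  rw [Real.dist_eq, abs_lt]
  constructor
  · have : γ - ε < Real.log (u 0 t) / t := by
      rw [lt_div_iff₀ ht2]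
      nlinarith
    linarith
  · have : Real.log (u 0 t) / t ≤ γ := by
      rw [div_le_iff₀ ht2]
      exact h2
    linarith

end

end Q289.PAM
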